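import Pool.Agent.TH22.UF.Defs

/-!
# Half-braidings on simple objects of C*-tensor categories are unitary
-/

set_option autoImplicit false
set_option linter.unusedSectionVars false
set_option linter.unusedVariables false

open CategoryTheory CategoryTheory.Limits MonoidalCategory

namespace Pool.Agent.TH22.UF

universe v u

section coherence

variable {D : Type u} [Category.{v} D] [MonoidalCategory D]

/-- The product of two pairings. -/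
def pairMul {Y Y' Z Z' : D} (η : 𝟙_ D ⟶ Y ⊗ Y') (θ : 𝟙_ D ⟶ Z ⊗ Z') :
    𝟙_ D ⟶ (Y ⊗ Z) ⊗ (Z' ⊗ Y') :=
  η ≫ Y ◁ ((λ_ Y').inv ≫ θ ▷ Y' ≫ (α_ Z Z' Y').hom) ≫ (α_ Y Z (Z' ⊗ Y')).inv

/-- The rearrangement. -/
def uIso (X Y Y' Z Z' : D) :
    (Y ⊗ ((Z ⊗ X) ⊗ Z')) ⊗ Y' ≅ ((Y ⊗ Z) ⊗ X) ⊗ (Z' ⊗ Y') :=
  whiskerRightIso (α_ Y (Z ⊗ X) Z').symm Y' ≪≫ (α_ (Y ⊗ (Z ⊗ X)) Z' Y') ≪≫
    whiskerRightIso (α_ Y Z X).symm (Z' ⊗ Y')

lemma exchange_aux {X Y Z Z' : D} (θ : 𝟙_ D ⟶ Z ⊗ Z') (f : X ⊗ Y ⟶ Y ⊗ X) :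
    f ≫ Y ◁ ((ρ_ X).inv ≫ X ◁ θ) =
      (ρ_ (X ⊗ Y)).inv ≫ (X ⊗ Y) ◁ θ ≫ f ▷ (Z ⊗ Z') ≫ (α_ Y X (Z ⊗ Z')).hom := by
  have h1 : Y ◁ ((ρ_ X).inv ≫ X ◁ θ) = (ρ_ (Y ⊗ X)).inv ≫ (Y ⊗ X) ◁ θ ≫
      (α_ Y X (Z ⊗ Z')).hom := by
    monoidal
  rw [h1, whisker_exchange_assoc]
  monoidal

/-- The vector attached to a pairing and a half-braiding. -/
def xi {X Y Y' : D} (η : 𝟙_ D ⟶ Y ⊗ Y') (f : X ⊗ Y ⟶ Y ⊗ X) : X ⟶ (Y ⊗ X) ⊗ Y' :=
  (ρ_ X).inv ≫ X ◁ η ≫ (α_ X Y Y').inv ≫ f ▷ Y'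

lemma xi_pairMul {X Y Y' Z Z' : D} (η : 𝟙_ D ⟶ Y ⊗ Y') (θ : 𝟙_ D ⟶ Z ⊗ Z')
    (f : X ⊗ Y ⟶ Y ⊗ X) (h : X ⊗ Z ⟶ Z ⊗ X) :
    xi (pairMul η θ) ((α_ X Y Z).inv ≫ f ▷ Z ≫ (α_ Y X Z).hom ≫ Y ◁ h ≫ (α_ Y Z X).inv) =
      xi η f ≫ (Y ◁ xi θ h) ▷ Y' ≫ (uIso X Y Y' Z Z').hom := by
  unfold xi
  have h1 : ((ρ_ X).inv ≫ X ◁ η ≫ (α_ X Y Y').inv ≫ f ▷ Y') ≫
      (Y ◁ ((ρ_ X).inv ≫ X ◁ θ ≫ (α_ X Z Z').inv ≫ h ▷ Z')) ▷ Y' =
      (ρ_ X).inv ≫ X ◁ η ≫ (α_ X Y Y').inv ≫ (f ≫ Y ◁ ((ρ_ X).inv ≫ X ◁ θ)) ▷ Y' ≫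
        (Y ◁ ((α_ X Z Z').inv ≫ h ▷ Z')) ▷ Y' := by
    simp only [MonoidalCategory.whiskerLeft_comp, comp_whiskerRight, Category.assoc]
  rw [← Category.assoc ((ρ_ X).inv ≫ X ◁ η ≫ (α_ X Y Y').inv ≫ f ▷ Y'), h1, exchange_aux]
  unfold pairMul uIso
  simp only [Iso.trans_hom, whiskerRightIso_hom, Iso.symm_hom]
  monoidal

end coherence

section star

variable {D : Type u} [Category.{v} D] [Preadditive D] [Linear ℂ D] [MonoidalCategory D]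
  [MonoidalPreadditive D] [MonoidalLinear ℂ D] (s : CStarTensorStructure D)

namespace CStarTensorStructure

lemma star_id (X : D) : s.star (𝟙 X) = 𝟙 X := by
  have h1 : s.star (s.star (𝟙 X)) = s.star (𝟙 X) := by
    conv_lhs => rw [← Category.comp_id (s.star (𝟙 X)), s.star_comp, s.star_star]
    exact Category.comp_id _
  rw [← h1, s.star_star]

lemma star_zero (X Y : D) : s.star (0 : X ⟶ Y) = 0 := by
  have h := s.star_smul (0 : ℂ) (0 : X ⟶ Y)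
  simpa using h

lemma star_neg {X Y : D} (f : X ⟶ Y) : s.star (-f) = -s.star f := by
  have h := s.star_smul (-1 : ℂ) f
  simpa using h

lemma star_sub {X Y : D} (f g : X ⟶ Y) : s.star (f - g) = s.star f - s.star g := by
  rw [sub_eq_add_neg, s.star_add, s.star_neg, ← sub_eq_add_neg]

lemma star_sum {X Y : D} {κ : Type*} (t : Finset κ) (f : κ → (X ⟶ Y)) :
    s.star (∑ k ∈ t, f k) = ∑ k ∈ t, s.star (f k) := by
  classical
  induction t using Finset.induction_on with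
  | empty => simp [star_zero]
  | insert a t ha ih => rw [Finset.sum_insert ha, Finset.sum_insert ha, s.star_add, ih]

lemma star_whiskerRight {X Y : D} (f : X ⟶ Y) (Z : D) : s.star (f ▷ Z) = s.star f ▷ Z := by
  rw [← tensorHom_id, s.star_tensorHom, s.star_id, tensorHom_id]

lemma star_whiskerLeft {X Y : D} (Z : D) (f : X ⟶ Y) : s.star (Z ◁ f) = Z ◁ s.star f := by
  rw [← id_tensorHom, s.star_tensorHom, s.star_id, id_tensorHom]

lemma star_associator_inv (X Y Z : D) : s.star (α_ X Y Z).inv = (α_ X Y Z).hom := by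
  rw [← s.star_associator, s.star_star]

lemma star_leftUnitor_inv (X : D) : s.star (λ_ X).inv = (λ_ X).hom := by
  rw [← s.star_leftUnitor, s.star_star]

lemma star_rightUnitor_inv (X : D) : s.star (ρ_ X).inv = (ρ_ X).hom := by
  rw [← s.star_rightUnitor, s.star_star]

lemma star_uIso (X Y Y' Z Z' : D) : s.star (uIso X Y Y' Z Z').hom = (uIso X Y Y' Z Z').inv := by
  unfold uIso
  simp [s.star_comp, s.star_whiskerRight, s.star_associator, s.star_associator_inv]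

lemma norm_zero' (X Y : D) : s.norm (0 : X ⟶ Y) = 0 := by
  have := s.norm_smul (0 : ℂ) (0 : X ⟶ Y)
  simpa using this

lemma eq_zero_of_comp_star {X Y : D} (f : X ⟶ Y) (h : f ≫ s.star f = 0) : f = 0 := by
  apply s.eq_zero_of_norm
  have h1 := s.norm_comp_star f
  rw [h, s.norm_zero'] at h1
  exact pow_eq_zero_iff (two_ne_zero) |>.mp h1.symm

variable {s}

/-- `X` is a simple object (in the sense that it has only scalar endomorphisms). -/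
structure Scal (X : D) : Prop where
  scalar : ∀ f : X ⟶ X, ∃ z : ℂ, f = z • 𝟙 X
  ne : 𝟙 X ≠ 0

lemma Scal.inj {X : D} (hX : Scal X) {z w : ℂ} (h : z • 𝟙 X = w • 𝟙 X) : z = w :=
  smul_left_injective ℂ hX.ne h

variable (s)

/-- The square of the norm of `ξ` is `t`. -/
def NS {X Z : D} (ξ : X ⟶ Z) (t : ℝ) : Prop := ξ ≫ s.star ξ = (t : ℂ) • 𝟙 X

variable {s}

lemma exists_NS {X Z : D} (hX : Scal X) (ξ : X ⟶ Z) : ∃ t : ℝ, 0 ≤ t ∧ s.NS ξ t := by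
  obtain ⟨g, hg⟩ := s.positive ξ
  obtain ⟨z, rfl⟩ := hX.scalar g
  refine ⟨Complex.normSq z, Complex.normSq_nonneg z, ?_⟩
  unfold NS
  rw [hg, s.star_smul, s.star_id, Linear.smul_comp, Linear.comp_smul, Category.comp_id, smul_smul,
    Complex.mul_conj]

lemma NS_unique {X Z : D} (hX : Scal X) {ξ : X ⟶ Z} {t t' : ℝ} (h : s.NS ξ t) (h' : s.NS ξ t') :
    t = t' := by
  have := hX.inj (h.symm.trans h')
  exact_mod_cast this

lemma NS_nonneg {X Z : D} (hX : Scal X) {ξ : X ⟶ Z} {t : ℝ} (h : s.NS ξ t) : 0 ≤ t := by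
  obtain ⟨t', h1, h2⟩ := exists_NS hX ξ
  rwa [NS_unique hX h h2]

lemma NS_comp {X W Z : D} {ξ : X ⟶ W} {t : ℝ} {f : W ⟶ Z} {z : ℝ}
    (hf : f ≫ s.star f = (z : ℂ) • 𝟙 W) (h : s.NS ξ t) : s.NS (ξ ≫ f) (t * z) := by
  unfold NS at h ⊢
  rw [s.star_comp, Category.assoc, ← Category.assoc f, hf]
  simp only [Linear.smul_comp, Category.id_comp, Linear.comp_smul]
  rw [h, smul_smul]
  push_cast
  ring_nf

/-- The quadratic form in the middle. -/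
lemma exists_bound {Z Z' : D} (f : Z ⟶ Z')
    (hK : ∃ (K : ℝ) (g : Z ⟶ Z), (K : ℂ) • 𝟙 Z = f ≫ s.star f + g ≫ s.star g) :
    ∃ K : ℝ, 0 ≤ K ∧ ∀ (X Y' : D) (hX : Scal X) (ζ : X ⟶ Z ⊗ Y') (t t' : ℝ),
      s.NS ζ t → s.NS (ζ ≫ f ▷ Y') t' → t' ≤ K * t := by
  obtain ⟨K, g, hg⟩ := hK
  refine ⟨|K|, abs_nonneg K, fun X Y' hX ζ t t' h h' => ?_⟩
  obtain ⟨t'', h0, h''⟩ := exists_NS hX (ζ ≫ g ▷ Y')
  have h1 : (t' : ℂ) • 𝟙 X + (t'' : ℂ) • 𝟙 X = ((K * t : ℝ) : ℂ) • 𝟙 X := by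
    unfold NS at h h' h''
    rw [← h', ← h'']
    rw [s.star_comp, s.star_comp, s.star_whiskerRight, s.star_whiskerRight]
    simp only [Category.assoc]
    rw [← comp_whiskerRight_assoc, ← comp_whiskerRight_assoc, ← Preadditive.comp_add,
      ← Preadditive.add_comp, ← MonoidalPreadditive.add_whiskerRight, ← hg]
    rw [MonoidalLinear.smul_whiskerRight, id_whiskerRight, Linear.smul_comp, Category.id_comp,
      Linear.comp_smul, h, smul_smul]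
    push_cast
    rfl
  rw [← add_smul] at h1
  have h2 := hX.inj h1
  have h3 : t' + t'' = K * t := by exact_mod_cast h2
  have h4 : K * t ≤ |K| * t := mul_le_mul_of_nonneg_right (le_abs_self K) (NS_nonneg hX h)
  linarith

/-- The norm of the vector of a pairing. -/
lemma NS_xi0 {X Y Y' : D} (η : 𝟙_ D ⟶ Y ⊗ Y') {d : ℝ} (h : s.NS η d) :
    s.NS ((ρ_ X).inv ≫ X ◁ η ≫ (α_ X Y Y').inv) d := by
  unfold NS at h ⊢
  simp only [s.star_comp, s.star_whiskerLeft, s.star_associator_inv, s.star_rightUnitor_inv,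
    Category.assoc, Iso.inv_hom_id_assoc]
  rw [← MonoidalCategory.whiskerLeft_comp_assoc, h, MonoidalLinear.whiskerLeft_smul,
    MonoidalCategory.whiskerLeft_id, Linear.smul_comp, Category.id_comp, Linear.comp_smul,
    Iso.inv_hom_id]

lemma NS_pairMul {Y Y' Z Z' : D} (η : 𝟙_ D ⟶ Y ⊗ Y') (θ : 𝟙_ D ⟶ Z ⊗ Z') {d d' : ℝ}
    (h : s.NS η d) (h' : s.NS θ d') : s.NS (pairMul η θ) (d * d') := by
  unfold pairMul
  refine NS_comp ?_ h
  unfold NS at h'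
  simp only [s.star_comp, s.star_whiskerLeft, s.star_whiskerRight, s.star_associator_inv,
    s.star_associator, s.star_leftUnitor_inv, Category.assoc, Iso.inv_hom_id_assoc]
  rw [← MonoidalCategory.whiskerLeft_comp]
  simp only [Category.assoc, Iso.hom_inv_id_assoc]
  rw [← comp_whiskerRight_assoc, h', MonoidalLinear.smul_whiskerRight, id_whiskerRight,
    Linear.smul_comp, Category.id_comp, Linear.comp_smul, Iso.inv_hom_id,
    MonoidalLinear.whiskerLeft_smul, MonoidalCategory.whiskerLeft_id]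

variable (s)

/-- A half-braiding. -/
structure HalfBr (X : D) where
  c : ∀ Y : D, X ⊗ Y ≅ Y ⊗ X
  nat : ∀ {Y Z : D} (f : Y ⟶ Z), X ◁ f ≫ (c Z).hom = (c Y).hom ≫ f ▷ X
  hex : ∀ Y Z : D, (c (Y ⊗ Z)).hom = (α_ X Y Z).inv ≫ (c Y).hom ▷ Z ≫ (α_ Y X Z).hom ≫
    Y ◁ (c Z).hom ≫ (α_ Y Z X).inv

/-- The adjoint inverse of a half-braiding. -/
def HalfBr.tilde {X : D} (b : HalfBr X) : HalfBr X where
  c Y :=
    { hom := s.star (b.c Y).inv
      inv := s.star (b.c Y).hom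
      hom_inv_id := by rw [← s.star_comp, Iso.hom_inv_id, s.star_id]
      inv_hom_id := by rw [← s.star_comp, Iso.inv_hom_id, s.star_id] }
  nat {Y Z} f := by
    have h1 := b.nat (s.star f)
    have h2 : (b.c Z).inv ≫ X ◁ s.star f = s.star f ▷ X ≫ (b.c Y).inv := by
      rw [Iso.inv_comp_eq, ← Category.assoc, ← h1, Category.assoc, Iso.hom_inv_id,
        Category.comp_id]
    have h3 := congrArg s.star h2
    simp only [s.star_comp, s.star_whiskerLeft, s.star_whiskerRight, s.star_star] at h3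
    exact h3
  hex Y Z := by
    have h1 : (b.c (Y ⊗ Z)).inv = (α_ Y Z X).hom ≫ Y ◁ (b.c Z).inv ≫ (α_ Y X Z).inv ≫
        (b.c Y).inv ▷ Z ≫ (α_ X Y Z).hom := by
      rw [Iso.inv_eq_inv (b.c (Y ⊗ Z)) ((α_ X Y Z).symm ≪≫ whiskerRightIso (b.c Y) Z ≪≫
        (α_ Y X Z) ≪≫ whiskerLeftIso Y (b.c Z) ≪≫ (α_ Y Z X).symm) |>.mpr (by simpa using b.hex Y Z)]
      simp
    have h3 := congrArg s.star h1
    simp only [s.star_comp, s.star_whiskerLeft, s.star_whiskerRight, s.star_associator,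
      s.star_associator_inv, Category.assoc] at h3
    exact h3

variable {s}

lemma NS_xi_pairMul {X Y Y' Z Z' : D} (b : HalfBr X) (η : 𝟙_ D ⟶ Y ⊗ Y') (θ : 𝟙_ D ⟶ Z ⊗ Z')
    {e e' : ℝ} (h : s.NS (xi η (b.c Y).hom) e) (h' : s.NS (xi θ (b.c Z).hom) e') :
    s.NS (xi (pairMul η θ) (b.c (Y ⊗ Z)).hom) (e * e') := by
  rw [b.hex, xi_pairMul]
  refine NS_comp ?_ h
  unfold NS at h'
  rw [s.star_comp, s.star_uIso, Category.assoc, Iso.hom_inv_id_assoc, s.star_whiskerRight,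
    s.star_whiskerLeft, ← comp_whiskerRight, ← MonoidalCategory.whiskerLeft_comp, h',
    MonoidalLinear.whiskerLeft_smul, MonoidalLinear.smul_whiskerRight,
    MonoidalCategory.whiskerLeft_id, id_whiskerRight]

lemma exists_powers {X Y Y' : D} (b : HalfBr X) (η : 𝟙_ D ⟶ Y ⊗ Y') {d e : ℝ}
    (h : s.NS η d) (h' : s.NS (xi η (b.c Y).hom) e) (n : ℕ) :
    ∃ (Z Z' : D) (θ : 𝟙_ D ⟶ Z ⊗ Z'), s.NS θ (d ^ (n + 1)) ∧
      s.NS (xi θ (b.c Z).hom) (e ^ (n + 1)) := by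
  induction n with
  | zero => exact ⟨Y, Y', η, by simpa using h, by simpa using h'⟩
  | succ n ih =>
    obtain ⟨Z, Z', θ, h1, h2⟩ := ih
    refine ⟨Y ⊗ Z, Z' ⊗ Y', pairMul η θ, ?_, ?_⟩
    · rw [pow_succ' d]; exact NS_pairMul η θ h h1
    · rw [pow_succ' e]; exact NS_xi_pairMul b η θ h' h2

lemma le_of_pow_le {d e K : ℝ} (hd : 0 ≤ d) (he : 0 ≤ e) (hK : 0 ≤ K)
    (h : ∀ n : ℕ, e ^ (n + 1) ≤ K * d ^ (n + 1)) : e ≤ d := by
  by_contra hcon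
  push Not at hcon
  rcases hd.eq_or_lt with h0 | h0
  · have := h 0
    rw [← h0] at this
    simp at this
    rw [← h0] at hcon
    linarith
  · have h1 : 1 < e / d := by rwa [one_lt_div h0]
    obtain ⟨n, hn⟩ := pow_unbounded_of_one_lt K h1
    have h2 : (e / d) ^ n ≤ (e / d) ^ (n + 1) := pow_le_pow_right₀ h1.le (Nat.le_succ n)
    have h3 := h n
    have h4 : (e / d) ^ (n + 1) ≤ K := by
      rw [div_pow, div_le_iff₀ (pow_pos h0 _)]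
      exact h3
    linarith

/-- Decompositions into the members of a finite list. -/
def FinDec (s : CStarTensorStructure D) {r : ℕ} (T : Fin r → D) : Prop :=
  ∀ Y : D, ∃ (n : ℕ) (b : Fin n → Fin r) (ι : ∀ k, T (b k) ⟶ Y),
    ∑ k, s.star (ι k) ≫ ι k = 𝟙 Y

/-- The boundedness property. -/
def Bdd (s : CStarTensorStructure D) : Prop :=
  ∀ {Z Z' : D} (f : Z ⟶ Z'), ∃ (K : ℝ) (g : Z ⟶ Z),
    (K : ℂ) • 𝟙 Z = f ≫ s.star f + g ≫ s.star g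

lemma exists_uniform {r : ℕ} {T : Fin r → D} (hT : s.FinDec T) (hB : s.Bdd) {X : D}
    (hX : Scal X) (b : HalfBr X) :
    ∃ K : ℝ, 0 ≤ K ∧ ∀ (Y Y' : D) (ζ : X ⟶ (X ⊗ Y) ⊗ Y') (t t' : ℝ),
      s.NS ζ t → s.NS (ζ ≫ (b.c Y).hom ▷ Y') t' → t' ≤ K * t := by
  have h1 := fun a : Fin r => exists_bound (b.c (T a)).hom (hB (b.c (T a)).hom)
  choose K hK0 hK using h1
  refine ⟨∑ a, K a, Finset.sum_nonneg fun a _ => hK0 a, fun Y Y' ζ t t' ht ht' => ?_⟩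
  obtain ⟨n, l, ι, hι⟩ := hT Y
  -- the components
  have h2 : ∀ k, ∃ u : ℝ, 0 ≤ u ∧ s.NS (ζ ≫ (X ◁ s.star (ι k)) ▷ Y') u := fun k => exists_NS hX _
  have h3 : ∀ k, ∃ u : ℝ, 0 ≤ u ∧
      s.NS ((ζ ≫ (X ◁ s.star (ι k)) ▷ Y') ≫ (b.c (T (l k))).hom ▷ Y') u := fun k => exists_NS hX _
  choose u hu0 hu using h2
  choose w hw0 hw using h3
  have h4 : t = ∑ k, u k := by
    have : (t : ℂ) • 𝟙 X = ((∑ k, u k : ℝ) : ℂ) • 𝟙 X := by
      unfold NS at ht hu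
      rw [← ht]
      push_cast
      rw [Finset.sum_smul]
      simp_rw [← hu]
      have e1 : ∀ k, (ζ ≫ (X ◁ s.star (ι k)) ▷ Y') ≫ s.star (ζ ≫ (X ◁ s.star (ι k)) ▷ Y') =
          ζ ≫ ((X ◁ (s.star (ι k) ≫ ι k)) ▷ Y') ≫ s.star ζ := by
        intro k
        simp only [s.star_comp, s.star_whiskerLeft, s.star_whiskerRight, s.star_star,
          MonoidalCategory.whiskerLeft_comp, comp_whiskerRight, Category.assoc]
      simp_rw [e1, ← Preadditive.comp_sum, ← Preadditive.sum_comp, ← sum_whiskerRight,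
        ← whiskerLeft_sum, hι]
      simp
    have h5 := hX.inj this
    exact_mod_cast h5
  have h6 : t' = ∑ k, w k := by
    have : (t' : ℂ) • 𝟙 X = ((∑ k, w k : ℝ) : ℂ) • 𝟙 X := by
      unfold NS at ht' hw
      rw [← ht']
      push_cast
      rw [Finset.sum_smul]
      simp_rw [← hw]
      have e0 : ∀ k, (ι k) ▷ X ≫ s.star (b.c Y).hom = s.star (b.c (T (l k))).hom ≫ X ◁ ι k := by
        intro k
        have := congrArg s.star (b.nat (s.star (ι k)))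
        simp only [s.star_comp, s.star_whiskerLeft, s.star_whiskerRight, s.star_star] at this
        exact this.symm
      have e1 : ∀ k, ((ζ ≫ (X ◁ s.star (ι k)) ▷ Y') ≫ (b.c (T (l k))).hom ▷ Y') ≫
          s.star ((ζ ≫ (X ◁ s.star (ι k)) ▷ Y') ≫ (b.c (T (l k))).hom ▷ Y') =
          ζ ≫ ((X ◁ (s.star (ι k) ≫ ι k) ≫ (b.c Y).hom ≫ s.star (b.c Y).hom) ▷ Y') ≫
            s.star ζ := by
        intro k
        have e2 : X ◁ (s.star (ι k) ≫ ι k) ≫ (b.c Y).hom ≫ s.star (b.c Y).hom =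
            X ◁ s.star (ι k) ≫ (b.c (T (l k))).hom ≫ s.star (b.c (T (l k))).hom ≫ X ◁ ι k := by
          rw [← e0, MonoidalCategory.whiskerLeft_comp, Category.assoc, reassoc_of% (b.nat (ι k))]
        rw [e2]
        simp only [s.star_comp, s.star_whiskerLeft, s.star_whiskerRight, s.star_star,
          comp_whiskerRight, Category.assoc]
      simp_rw [e1, ← Preadditive.comp_sum, ← Preadditive.sum_comp, ← sum_whiskerRight,
        ← Preadditive.sum_comp, ← whiskerLeft_sum, hι]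
      simp only [s.star_comp, s.star_whiskerRight, MonoidalCategory.whiskerLeft_id,
        Category.id_comp, comp_whiskerRight, Category.assoc]
    have h5 := hX.inj this
    exact_mod_cast h5
  rw [h4, h6, Finset.mul_sum]
  refine Finset.sum_le_sum fun k _ => ?_
  have h7 := hK (l k) X Y' hX _ _ _ (hu k) (hw k)
  refine h7.trans (mul_le_mul_of_nonneg_right ?_ (hu0 k))
  exact Finset.single_le_sum (f := K) (fun a _ => hK0 a) (Finset.mem_univ _)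

lemma xi_le {r : ℕ} {T : Fin r → D} (hT : s.FinDec T) (hB : s.Bdd) {X : D}
    (hX : Scal X) (h1 : Scal (𝟙_ D)) (b : HalfBr X) {Y Y' : D} (η : 𝟙_ D ⟶ Y ⊗ Y') {d e : ℝ}
    (h : s.NS η d) (h' : s.NS (xi η (b.c Y).hom) e) : e ≤ d := by
  obtain ⟨K, hK0, hK⟩ := exists_uniform hT hB hX b
  refine le_of_pow_le (NS_nonneg h1 h) (NS_nonneg hX h') hK0 fun n => ?_
  obtain ⟨Z, Z', θ, h2, h3⟩ := exists_powers b η h h' n
  refine hK Z Z' _ _ _ (NS_xi0 θ h2) ?_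
  unfold xi at h3
  simpa only [Category.assoc] using h3

lemma recover {X Y Y' : D} [ExactPairing Y Y'] (f : X ⊗ Y ⟶ Y ⊗ X) :
    (xi (η_ Y Y') f) ▷ Y ≫ (α_ (Y ⊗ X) Y' Y).hom ≫ (Y ⊗ X) ◁ (ε_ Y Y') ≫ (ρ_ (Y ⊗ X)).hom = f := by
  unfold xi
  have h1 : ((ρ_ X).inv ≫ X ◁ (η_ Y Y') ≫ (α_ X Y Y').inv ≫ f ▷ Y') ▷ Y ≫
      (α_ (Y ⊗ X) Y' Y).hom ≫ (Y ⊗ X) ◁ (ε_ Y Y') ≫ (ρ_ (Y ⊗ X)).hom =
      ((ρ_ X).inv ≫ X ◁ (η_ Y Y') ≫ (α_ X Y Y').inv) ▷ Y ≫ (α_ (X ⊗ Y) Y' Y).hom ≫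
      (f ▷ (Y' ⊗ Y) ≫ (Y ⊗ X) ◁ (ε_ Y Y')) ≫ (ρ_ (Y ⊗ X)).hom := by
    simp
  rw [h1, ← whisker_exchange, Category.assoc, rightUnitor_naturality]
  have h2 : ((ρ_ X).inv ≫ X ◁ (η_ Y Y') ≫ (α_ X Y Y').inv) ▷ Y ≫ (α_ (X ⊗ Y) Y' Y).hom ≫
      (X ⊗ Y) ◁ (ε_ Y Y') ≫ (ρ_ (X ⊗ Y)).hom ≫ f =
      (X ◁ ((λ_ Y).inv ≫ ((η_ Y Y') ▷ Y ≫ (α_ Y Y' Y).hom ≫ Y ◁ (ε_ Y Y')) ≫ (ρ_ Y).hom)) ≫ f := by
    monoidal
  rw [h2, ExactPairing.evaluation_coevaluation]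
  simp

/-- **Half-braidings on simple objects are unitary.** -/
theorem star_halfBr {r : ℕ} {T : Fin r → D} (hT : s.FinDec T) (hB : s.Bdd) {X : D}
    (hX : Scal X) (h1 : Scal (𝟙_ D)) (b : HalfBr X) {Y Y' : D} [ExactPairing Y Y'] :
    s.star (b.c Y).hom = (b.c Y).inv := by
  obtain ⟨d, hd0, hd⟩ := exists_NS h1 (s := s) (η_ Y Y')
  obtain ⟨e, he0, he⟩ := exists_NS hX (s := s) (xi (η_ Y Y') (b.c Y).hom)
  obtain ⟨e', he0', he'⟩ := exists_NS hX (s := s) (xi (η_ Y Y') ((HalfBr.tilde s b).c Y).hom)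
  have hle := xi_le hT hB hX h1 b (η_ Y Y') hd he
  have hle' := xi_le hT hB hX h1 (HalfBr.tilde s b) (η_ Y Y') hd he'
  have hd' := NS_xi0 (X := X) (η_ Y Y') hd
  have hc1 : xi (η_ Y Y') (b.c Y).hom ≫ s.star (xi (η_ Y Y') ((HalfBr.tilde s b).c Y).hom) =
      (d : ℂ) • 𝟙 X := by
    unfold NS at hd'
    rw [← hd']
    unfold xi
    change ((ρ_ X).inv ≫ X ◁ (η_ Y Y') ≫ (α_ X Y Y').inv ≫ (b.c Y).hom ▷ Y') ≫
      s.star ((ρ_ X).inv ≫ X ◁ (η_ Y Y') ≫ (α_ X Y Y').inv ≫ (s.star (b.c Y).inv) ▷ Y') = _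
    simp only [s.star_comp, s.star_whiskerRight, s.star_star, Category.assoc]
    rw [← comp_whiskerRight_assoc, Iso.hom_inv_id]
    simp
  have hc2 : xi (η_ Y Y') ((HalfBr.tilde s b).c Y).hom ≫ s.star (xi (η_ Y Y') (b.c Y).hom) =
      (d : ℂ) • 𝟙 X := by
    have := congrArg s.star hc1
    rw [s.star_comp, s.star_star, s.star_smul, s.star_id, Complex.conj_ofReal] at this
    exact this
  have hw : s.NS (xi (η_ Y Y') (b.c Y).hom - xi (η_ Y Y') ((HalfBr.tilde s b).c Y).hom)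
      (e + e' - 2 * d) := by
    unfold NS at he he' ⊢
    rw [s.star_sub, Preadditive.sub_comp, Preadditive.comp_sub, Preadditive.comp_sub, he, he', hc1,
      hc2]
    push_cast
    module
  have h0 : e + e' - 2 * d = 0 := le_antisymm (by linarith) (NS_nonneg hX hw)
  rw [h0] at hw
  have hz : xi (η_ Y Y') (b.c Y).hom - xi (η_ Y Y') ((HalfBr.tilde s b).c Y).hom = 0 := by
    apply s.eq_zero_of_comp_star
    unfold NS at hw
    rw [hw]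
    simp
  have heq : xi (η_ Y Y') (b.c Y).hom = xi (η_ Y Y') ((HalfBr.tilde s b).c Y).hom := sub_eq_zero.mp hz
  have h2 : (b.c Y).hom = ((HalfBr.tilde s b).c Y).hom := by
    rw [← recover (Y' := Y') (b.c Y).hom, heq, recover]
  have h3 : (b.c Y).hom = s.star (b.c Y).inv := h2
  rw [h3, s.star_star]

end CStarTensorStructure

end star

end Pool.Agent.TH22.UF
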