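import Pool.Agent.TH22.UF.Build
import Pool.Agent.TH22.UF.Half

/-!
# Unitarity of braidings
-/

set_option autoImplicit false
set_option linter.unusedSectionVars false
set_option linter.unusedVariables false

open CategoryTheory CategoryTheory.Limits MonoidalCategory

namespace Pool.Agent.TH22.UF

universe v u

section psd

open scoped ComplexOrder MatrixOrder Matrix.Norms.L2Operator

lemma exists_le_factor {n m : Type*} [Fintype n] [Fintype m] [DecidableEq n]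
    (M : Matrix n m ℂ) :
    ∃ K₀ : ℝ, ∀ K : ℝ, K₀ ≤ K → ∃ A : Matrix n n ℂ,
      (K : ℂ) • (1 : Matrix n n ℂ) = M * M.conjTranspose + A.conjTranspose * A := by
  set P : Matrix n n ℂ := M * M.conjTranspose with hP
  have hA : P.PosSemidef := Matrix.posSemidef_self_mul_conjTranspose M
  refine ⟨‖P‖, fun K hK => ?_⟩
  have h1 : P ≤ algebraMap ℝ (Matrix n n ℂ) ‖P‖ := by
    have : IsSelfAdjoint P := hA.1
    exact this.le_algebraMap_norm_self
  have h2 : algebraMap ℝ (Matrix n n ℂ) ‖P‖ ≤ algebraMap ℝ (Matrix n n ℂ) K :=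
    algebraMap_mono _ hK
  have h3 : 0 ≤ algebraMap ℝ (Matrix n n ℂ) K - P := sub_nonneg.mpr (h1.trans h2)
  obtain ⟨A, hA'⟩ := CStarAlgebra.nonneg_iff_eq_star_mul_self.mp h3
  refine ⟨A, ?_⟩
  have h4 : algebraMap ℝ (Matrix n n ℂ) K = P + A.conjTranspose * A := by
    rw [sub_eq_iff_eq_add] at hA'
    exact hA'.trans (add_comm _ _)
  have h5 : algebraMap ℝ (Matrix n n ℂ) K = (K : ℂ) • (1 : Matrix n n ℂ) := by
    rw [Algebra.algebraMap_eq_smul_one]
    ext i j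
    simp
  rw [← h4, h5]

end psd

section

variable {C : Type u} [Category.{v} C] [Abelian C] [Linear ℂ C] [HasFiniteBiproducts C]
  [MonoidalCategory C] [MonoidalPreadditive C] [MonoidalLinear ℂ C] [RigidCategory C]

variable {r : ℕ} {S : Fin r → C} {𝒟 : UData S}

instance : MonoidalPreadditive (HObj 𝒟) where
  whiskerLeft_zero {X Y Z} := MonoidalPreadditive.whiskerLeft_zero (C := C)
  zero_whiskerRight {X Y Z} := MonoidalPreadditive.zero_whiskerRight (C := C)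
  whiskerLeft_add {X Y Z} f g := MonoidalPreadditive.whiskerLeft_add (C := C) f g
  add_whiskerRight {X Y Z} f g := MonoidalPreadditive.add_whiskerRight (C := C) f g

instance : MonoidalLinear ℂ (HObj 𝒟) where
  whiskerLeft_smul X {Y Z} z f := MonoidalLinear.whiskerLeft_smul (C := C) X.X z f
  smul_whiskerRight z {Y Z} f X := MonoidalLinear.smul_whiskerRight (C := C) z f X.X

/-- The simple objects. -/
noncomputable def TT (𝒟 : UData S) (a : Fin r) : HObj 𝒟 := ⟨S a, isoStr a (Iso.refl (S a))⟩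

lemma adj_inc {Y : C} (hY : HStr S Y) (a : Fin r) (t : hY.J a) :
    adj 𝒟.B (isoStr a (Iso.refl (S a))) hY (hY.inc a t) = hY.prj a t := by
  have h := adj_prj_inc 𝒟.B (isoStr a (Iso.refl (S a))) hY a ⟨rfl⟩ t
  have e1 : (isoStr a (Iso.refl (S a))).prj a ⟨rfl⟩ = 𝟙 (S a) := by
    simp [isoStr]
  have e2 : (isoStr a (Iso.refl (S a))).inc a ⟨rfl⟩ = 𝟙 (S a) := by
    simp [isoStr]
  rw [e1, e2, Category.id_comp, Category.comp_id] at h
  exact h

/-- The inclusions as morphisms of decomposed objects. -/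
def incD (Y : HObj 𝒟) (a : Fin r) (t : Y.str.J a) : TT 𝒟 a ⟶ Y := Y.str.inc a t

/-- The projections as morphisms of decomposed objects. -/
def prjD (Y : HObj 𝒟) (a : Fin r) (t : Y.str.J a) : Y ⟶ TT 𝒟 a := Y.str.prj a t

lemma star_incD (Y : HObj 𝒟) (a : Fin r) (t : Y.str.J a) :
    (cstar (𝒟 := 𝒟)).star (incD Y a t) = prjD Y a t := adj_inc Y.str a t

lemma totalD (Y : HObj 𝒟) : ∑ x : Σ a, Y.str.J a, prjD Y x.1 x.2 ≫ incD Y x.1 x.2 = 𝟙 Y := by
  rw [Fintype.sum_sigma]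
  exact Y.str.total

lemma finDec : (cstar (𝒟 := 𝒟)).FinDec (TT 𝒟) := by
  intro Y
  let e := Fintype.equivFin (Σ a, Y.str.J a)
  refine ⟨Fintype.card (Σ a, Y.str.J a), fun k => (e.symm k).1,
    fun k => incD Y (e.symm k).1 (e.symm k).2, ?_⟩
  rw [← totalD, ← Equiv.sum_comp e.symm]
  refine Finset.sum_congr rfl fun k _ => ?_
  rw [star_incD]

lemma bdd_aux (B : Base S) {X Y : C} (hX : HStr S X) (hY : HStr S Y) (f : X ⟶ Y) :
    ∃ (K : ℝ) (g : X ⟶ X), (K : ℂ) • 𝟙 X = f ≫ adj B hX hY f + g ≫ adj B hX hX g := by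
  classical
  have h := fun a => exists_le_factor (mat B hX hY f a)
  choose K₀ hK₀ using h
  obtain ⟨K, hK⟩ : ∃ K : ℝ, ∀ a, K₀ a ≤ K := by
    refine ⟨∑ a, |K₀ a|, fun a => (le_abs_self _).trans ?_⟩
    exact Finset.single_le_sum (f := fun a => |K₀ a|) (fun a _ => abs_nonneg _) (Finset.mem_univ a)
  choose A hA using fun a => hK₀ a K (hK a)
  refine ⟨K, ofMat hX hX fun a => (A a).conjTranspose, ?_⟩
  apply mat_injective B hX hX
  funext a
  rw [mat_smul, mat_id, mat_add, mat_comp B hX hY hX, mat_comp B hX hX hX, mat_adj, mat_adj,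
      mat_ofMat, Matrix.conjTranspose_conjTranspose, ← hA]

lemma bdd : (cstar (𝒟 := 𝒟)).Bdd := by
  intro Z Z' f
  obtain ⟨K, g, h⟩ := bdd_aux 𝒟.B Z.str Z'.str f
  exact ⟨K, g, h⟩

lemma scal_TT (a : Fin r) : CStarTensorStructure.Scal (TT 𝒟 a) where
  scalar f := ⟨𝒟.B.coef a f, 𝒟.B.coef_smul a f⟩
  ne h := by
    have h1 : 𝟙 (S a) = 0 := h
    have h2 := 𝒟.B.coef_id a
    rw [h1, map_zero] at h2
    exact zero_ne_one h2

lemma scal_unit : CStarTensorStructure.Scal (𝟙_ (HObj 𝒟)) where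
  scalar f := by
    have h1 : ∀ f : 𝟙_ C ⟶ 𝟙_ C, ∃ z : ℂ, f = z • 𝟙 (𝟙_ C) := by
      intro f
      refine ⟨𝒟.B.coef 𝒟.a₀ (𝒟.u.hom ≫ f ≫ 𝒟.u.inv), ?_⟩
      have h2 := 𝒟.B.coef_smul 𝒟.a₀ (𝒟.u.hom ≫ f ≫ 𝒟.u.inv)
      have h3 : f = 𝒟.u.inv ≫ (𝒟.u.hom ≫ f ≫ 𝒟.u.inv) ≫ 𝒟.u.hom := by simp
      conv_lhs => rw [h3, h2]
      rw [Linear.smul_comp, Linear.comp_smul, Category.id_comp, Iso.inv_hom_id]
    exact h1 f
  ne h := by
    have h1 : 𝟙 (𝟙_ C) = 0 := h
    have h3 : 𝟙 (S 𝒟.a₀) = 𝒟.u.hom ≫ 𝟙 (𝟙_ C) ≫ 𝒟.u.inv := by simp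
    have h2 := 𝒟.B.coef_id 𝒟.a₀
    rw [h3, h1] at h2
    simp at h2

/-- Transport of exact pairings. -/
@[instance_reducible]
noncomputable def pairing (Y Y' : HObj 𝒟) [ExactPairing Y.X Y'.X] : ExactPairing Y Y' where
  coevaluation' := (η_ Y.X Y'.X)
  evaluation' := (ε_ Y.X Y'.X)
  coevaluation_evaluation' := ExactPairing.coevaluation_evaluation Y.X Y'.X
  evaluation_coevaluation' := ExactPairing.evaluation_coevaluation Y.X Y'.X

variable [BraidedCategory C]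

noncomputable instance : BraidedCategory (HObj 𝒟) where
  braiding X Y := mkIso (β_ X.X Y.X)
  braiding_naturality_right X {Y Z} f := BraidedCategory.braiding_naturality_right (C := C) X.X f
  braiding_naturality_left {X Y} f Z := BraidedCategory.braiding_naturality_left (C := C) f Z.X
  hexagon_forward X Y Z := BraidedCategory.hexagon_forward (C := C) X.X Y.X Z.X
  hexagon_reverse X Y Z := BraidedCategory.hexagon_reverse (C := C) X.X Y.X Z.X

noncomputable instance : (forgetF (𝒟 := 𝒟)).Braided where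
  braided X Y := by
    change 𝟙 (X.X ⊗ Y.X) ≫ (β_ X.X Y.X).hom = (β_ X.X Y.X).hom ≫ 𝟙 (Y.X ⊗ X.X)
    simp

/-- The half-braiding given by the braiding. -/
noncomputable def brHalf (X : HObj 𝒟) : CStarTensorStructure.HalfBr X where
  c Y := β_ X Y
  nat f := BraidedCategory.braiding_naturality_right X f
  hex Y Z := by
    have h := BraidedCategory.hexagon_forward X Y Z
    rw [← cancel_epi (α_ X Y Z).hom, ← cancel_mono (α_ Y Z X).hom]
    simp only [Category.assoc, Iso.hom_inv_id_assoc, Iso.inv_hom_id, Category.comp_id]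
    exact h

lemma star_braiding_TT (hstr : ∀ X : C, Nonempty (HStr S X)) (a : Fin r) (Y : HObj 𝒟) :
    (cstar (𝒟 := 𝒟)).star (β_ (TT 𝒟 a) Y).hom = (β_ (TT 𝒟 a) Y).inv := by
  let Y' : HObj 𝒟 := ⟨HasRightDual.rightDual Y.X, (hstr _).some⟩
  have : ExactPairing Y.X Y'.X := HasRightDual.exact
  let _ := pairing Y Y'
  exact CStarTensorStructure.star_halfBr finDec bdd (scal_TT a) scal_unit (brHalf (TT 𝒟 a))
    (Y := Y) (Y' := Y')

lemma star_braiding (hstr : ∀ X : C, Nonempty (HStr S X)) (X Y : HObj 𝒟) :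
    (cstar (𝒟 := 𝒟)).star (β_ X Y).hom = (β_ X Y).inv := by
  obtain ⟨n, b, ι, hι⟩ := finDec (𝒟 := 𝒟) X
  set s := cstar (𝒟 := 𝒟) with hs
  have h1 : (β_ X Y).hom = ∑ k, (s.star (ι k) ▷ Y) ≫ (β_ (TT 𝒟 (b k)) Y).hom ≫ (Y ◁ ι k) := by
    have e1 : ∀ k, (s.star (ι k) ▷ Y) ≫ (β_ (TT 𝒟 (b k)) Y).hom ≫ (Y ◁ ι k) =
        ((s.star (ι k) ≫ ι k) ▷ Y) ≫ (β_ X Y).hom := by
      intro k
      rw [comp_whiskerRight, Category.assoc, BraidedCategory.braiding_naturality_left]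
    simp_rw [e1, ← Preadditive.sum_comp, ← sum_whiskerRight, hι]
    simp
  have h2 : s.star (β_ X Y).hom =
      ∑ k, (Y ◁ s.star (ι k)) ≫ (β_ (TT 𝒟 (b k)) Y).inv ≫ (ι k ▷ Y) := by
    rw [h1, s.star_sum]
    refine Finset.sum_congr rfl fun k _ => ?_
    rw [s.star_comp, s.star_comp, s.star_whiskerLeft, s.star_whiskerRight, s.star_star,
      star_braiding_TT hstr, Category.assoc]
  rw [h2]
  have e1 : ∀ k, (Y ◁ s.star (ι k)) ≫ (β_ (TT 𝒟 (b k)) Y).inv ≫ (ι k ▷ Y) =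
      (Y ◁ (s.star (ι k) ≫ ι k)) ≫ (β_ X Y).inv := by
    intro k
    rw [MonoidalCategory.whiskerLeft_comp, Category.assoc]
    congr 1
    rw [Iso.inv_comp_eq, ← Category.assoc, ← BraidedCategory.braiding_naturality_left]
    simp
  simp_rw [e1, ← Preadditive.sum_comp, ← whiskerLeft_sum, hι]
  simp

/-- A braided fusion category with a gauge with unitary F-matrices is unitary. -/
theorem isBraidedUnitary_of_unitaryF (hC : IsFusionCategory C) (hS : IsSimpleList S)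
    (g : Gauge S) (hg : g.UnitaryF) : IsBraidedUnitary C := by
  obtain ⟨𝒟⟩ := exists_udata hC hS g hg
  have hstr := exists_hstr hS 𝒟.B hC.semisimple
  have : (forgetF (𝒟 := 𝒟)).EssSurj := ⟨fun X => ⟨⟨X, (hstr X).some⟩, ⟨Iso.refl _⟩⟩⟩
  exact ⟨HObj 𝒟, inferInstance, inferInstance, inferInstance, inferInstance, inferInstance, cstar,
    forgetF, inferInstance, inferInstance, inferInstance, { }, star_braiding hstr⟩

end

end Pool.Agent.TH22.UF
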