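import Pool.Agent.TH22.UF.Tensor

/-!
# Unitarity of the associator
-/

set_option autoImplicit false
set_option linter.unusedSectionVars false

open CategoryTheory CategoryTheory.Limits MonoidalCategory

namespace Pool.Agent.TH22.UF

universe v u

section

variable {C : Type u} [Category.{v} C] [Preadditive C] [Linear ℂ C]

variable {r : ℕ} {S : Fin r → C} (B : Base S)

lemma mat_eq_of_inc {X Y : C} (hX : HStr S X) (hY : HStr S Y) (f : X ⟶ Y) (d : Fin r)
    (x : hX.J d) (c : hY.J d → ℂ) (h : hX.inc d x ≫ f = ∑ y, c y • hY.inc d y) (y : hY.J d) :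
    mat B hX hY f d x y = c y := by
  classical
  unfold mat
  rw [← Category.assoc, h, Preadditive.sum_comp, Finset.sum_eq_single y]
  · rw [Linear.smul_comp, hY.inc_prj_self, B.coef_smul_id]
  · intro y' _ hy
    rw [Linear.smul_comp, hY.inc_prj_ne d y' y hy, smul_zero]
  · intro h; exact absurd (Finset.mem_univ _) h

/-- A criterion for unitarity of an isomorphism. -/
lemma adj_eq_inv_of_blocks {X Y : C} (hX : HStr S X) (hY : HStr S Y) (f : X ≅ Y)
    (T : Fin r → Type) (P Q : ∀ d, T d → Type) [∀ d, Fintype (T d)] [∀ d τ, Fintype (P d τ)]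
    [∀ d τ, Fintype (Q d τ)] [∀ d τ, DecidableEq (P d τ)]
    (eL : ∀ d, (Σ τ : T d, P d τ) ≃ hX.J d) (eR : ∀ d, (Σ τ : T d, Q d τ) ≃ hY.J d)
    (U : ∀ d τ, Matrix (Q d τ) (P d τ) ℂ) (hU : ∀ d τ, (U d τ).conjTranspose * U d τ = 1)
    (hf : ∀ d τ p, hX.inc d (eL d ⟨τ, p⟩) ≫ f.hom = ∑ q, U d τ q p • hY.inc d (eR d ⟨τ, q⟩)) :
    adj B hX hY f.hom = f.inv := by
  classical
  -- entries of the matrix of f
  have h1 : ∀ d τ p τ' q, mat B hX hY f.hom d (eL d ⟨τ, p⟩) (eR d ⟨τ', q⟩) =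
      if h : τ' = τ then U d τ (h ▸ q) p else 0 := by
    intro d τ p τ' q
    let W : (Σ τ : T d, Q d τ) → ℂ := fun z => if h : z.1 = τ then U d τ (h ▸ z.2) p else 0
    have h2 := mat_eq_of_inc B hX hY f.hom d (eL d ⟨τ, p⟩) (fun y => W ((eR d).symm y)) ?_
      (eR d ⟨τ', q⟩)
    · rw [h2]
      simp only [Equiv.symm_apply_apply, W]
    · rw [hf d τ p, ← Equiv.sum_comp (eR d), Fintype.sum_sigma, Finset.sum_eq_single τ]
      · refine Finset.sum_congr rfl fun q _ => ?_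
        simp only [Equiv.symm_apply_apply, W, dite_true]
      · intro τ'' _ hτ
        refine Finset.sum_eq_zero fun q _ => ?_
        simp only [Equiv.symm_apply_apply, W, dif_neg hτ, zero_smul]
      · intro h; exact absurd (Finset.mem_univ _) h
  have h3 : ∀ d, mat B hX hY f.hom d * (mat B hX hY f.hom d).conjTranspose = 1 := by
    intro d
    ext x x'
    obtain ⟨⟨τ, p⟩, rfl⟩ := (eL d).surjective x
    obtain ⟨⟨τ', p'⟩, rfl⟩ := (eL d).surjective x'
    rw [Matrix.mul_apply, ← Equiv.sum_comp (eR d), Fintype.sum_sigma, Matrix.one_apply]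
    simp_rw [Matrix.conjTranspose_apply, h1]
    by_cases hτ : τ = τ'
    · subst hτ
      rw [Finset.sum_eq_single τ]
      · simp only [dite_true]
        have h4 := congrFun (congrFun (hU d τ) p') p
        rw [Matrix.mul_apply, Matrix.one_apply] at h4
        simp_rw [Matrix.conjTranspose_apply] at h4
        have h5 : (eL d ⟨τ, p⟩ = eL d ⟨τ, p'⟩) ↔ p' = p := by
          rw [(eL d).apply_eq_iff_eq]
          simp [eq_comm]
        simp only [h5]
        rw [← h4]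
        exact Finset.sum_congr rfl fun q _ => mul_comm _ _
      · intro τ'' _ hτ''
        refine Finset.sum_eq_zero fun q _ => ?_
        simp [hτ'']
      · intro h; exact absurd (Finset.mem_univ _) h
    · have h5 : ¬ (eL d ⟨τ, p⟩ = eL d ⟨τ', p'⟩) := by
        rw [(eL d).apply_eq_iff_eq]
        intro h
        exact hτ (congrArg Sigma.fst h)
      rw [if_neg h5]
      refine Finset.sum_eq_zero fun τ'' _ => Finset.sum_eq_zero fun q _ => ?_
      by_cases h6 : τ'' = τ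
      · subst h6
        simp [hτ]
      · simp [h6]
  have h7 : f.hom ≫ adj B hX hY f.hom = 𝟙 X := by
    apply mat_injective B hX hX
    funext d
    rw [mat_comp B hX hY hX, mat_adj, h3, mat_id]
  rw [← cancel_epi f.hom, h7, f.hom_inv_id]

end

section

variable {C : Type u} [Category.{v} C] [Preadditive C] [Linear ℂ C] [MonoidalCategory C]
  [MonoidalPreadditive C] [MonoidalLinear ℂ C]

variable {r : ℕ} {S : Fin r → C} (B : Base S) (V : ∀ a b, HStr S (S a ⊗ S b))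

/-- The F-matrices of the family `V` are unitary. -/
def UnitaryV : Prop := ∀ a b c d : Fin r,
  ∃ U : Matrix (Σ f, (V b c).J f × (V a f).J d) (Σ e, (V a b).J e × (V e c).J d) ℂ,
    (∀ p : Σ e, (V a b).J e × (V e c).J d,
      (V p.1 c).inc d p.2.2 ≫ ((V a b).inc p.1 p.2.1 ▷ S c) ≫ (α_ (S a) (S b) (S c)).hom =
      ∑ q : Σ f, (V b c).J f × (V a f).J d,
        U q p • ((V a q.1).inc d q.2.2 ≫ (S a ◁ (V b c).inc q.1 q.2.1))) ∧
    (∀ p p' : Σ e, (V a b).J e × (V e c).J d, p ≠ p' → ∑ q, star (U q p) * U q p' = 0) ∧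
    (∀ p : Σ e, (V a b).J e × (V e c).J d, ∑ q, star (U q p) * U q p = 1)

variable {V}

lemma adj_associator (hV : UnitaryV V) {X Y Z : C} (hX : HStr S X) (hY : HStr S Y)
    (hZ : HStr S Z) :
    adj B (tensorStr B V (tensorStr B V hX hY) hZ) (tensorStr B V hX (tensorStr B V hY hZ))
      (α_ X Y Z).hom = (α_ X Y Z).inv := by
  classical
  choose U hU1 hU2 hU3 using hV
  let T : Type := Σ p : Fin r × Fin r × Fin r, hX.J p.1 × hY.J p.2.1 × hZ.J p.2.2
  refine adj_eq_inv_of_blocks B (tensorStr B V (tensorStr B V hX hY) hZ)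
    (tensorStr B V hX (tensorStr B V hY hZ)) (α_ X Y Z) (fun _ => T)
    (fun d τ => Σ e, (V τ.1.1 τ.1.2.1).J e × (V e τ.1.2.2).J d)
    (fun d τ => Σ f, (V τ.1.2.1 τ.1.2.2).J f × (V τ.1.1 f).J d)
    (fun d => { toFun := fun x => ⟨(x.2.1, x.1.1.2.2), ⟨(x.1.1.1, x.1.1.2.1), x.1.2.1, x.1.2.2.1,
                  x.2.2.1⟩, x.1.2.2.2, x.2.2.2⟩
                invFun := fun y => ⟨⟨(y.2.1.1.1, y.2.1.1.2, y.1.2), y.2.1.2.1, y.2.1.2.2.1,
                  y.2.2.1⟩, ⟨y.1.1, y.2.1.2.2.2, y.2.2.2⟩⟩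
                left_inv := fun x => rfl
                right_inv := fun y => rfl })
    (fun d => { toFun := fun x => ⟨(x.1.1.1, x.2.1), x.1.2.1, ⟨(x.1.1.2.1, x.1.1.2.2),
                  x.1.2.2.1, x.1.2.2.2, x.2.2.1⟩, x.2.2.2⟩
                invFun := fun y => ⟨⟨(y.1.1, y.2.2.1.1.1, y.2.2.1.1.2), y.2.1, y.2.2.1.2.1,
                  y.2.2.1.2.2.1⟩, ⟨y.1.2, y.2.2.1.2.2.2, y.2.2.2⟩⟩
                left_inv := fun x => rfl
                right_inv := fun y => rfl })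
    (fun d τ => U τ.1.1 τ.1.2.1 τ.1.2.2 d) ?_ ?_
  · intro d τ
    ext p p'
    rw [Matrix.mul_apply, Matrix.one_apply]
    simp_rw [Matrix.conjTranspose_apply]
    split_ifs with h
    · subst h; exact hU3 _ _ _ _ p
    · exact hU2 _ _ _ _ p p' h
  · rintro d ⟨⟨a, b, c⟩, s, t, w⟩ ⟨e, i, j⟩
    have h1 := hU1 a b c d ⟨e, i, j⟩
    dsimp only at h1
    change ((V e c).inc d j ≫ (((V a b).inc e i ≫ (hX.inc a s ⊗ₘ hY.inc b t)) ⊗ₘ hZ.inc c w)) ≫
      (α_ X Y Z).hom = ∑ q : Σ f, (V b c).J f × (V a f).J d, U a b c d q ⟨e, i, j⟩ •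
      ((V a q.1).inc d q.2.2 ≫ (hX.inc a s ⊗ₘ ((V b c).inc q.1 q.2.1 ≫
        (hY.inc b t ⊗ₘ hZ.inc c w))))
    have h2 : ((V e c).inc d j ≫ (((V a b).inc e i ≫ (hX.inc a s ⊗ₘ hY.inc b t)) ⊗ₘ
        hZ.inc c w)) ≫ (α_ X Y Z).hom =
        ((V e c).inc d j ≫ ((V a b).inc e i ▷ S c) ≫ (α_ (S a) (S b) (S c)).hom) ≫
          (hX.inc a s ⊗ₘ (hY.inc b t ⊗ₘ hZ.inc c w)) := by
      simp [MonoidalCategory.tensorHom_def]
    rw [h2, h1, Preadditive.sum_comp]
    refine Finset.sum_congr rfl fun q _ => ?_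
    rw [Linear.smul_comp]
    congr 1
    simp only [MonoidalCategory.tensorHom_def, Category.assoc, MonoidalCategory.whiskerLeft_comp]
    rw [whisker_exchange_assoc]

end

end Pool.Agent.TH22.UF
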