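import Pool.Agent.TH22.UF.Cat

/-!
# The unitary data attached to a gauge with unitary F-matrices
-/

set_option autoImplicit false
set_option linter.unusedSectionVars false
set_option linter.unusedVariables false

open CategoryTheory CategoryTheory.Limits MonoidalCategory

namespace Pool.Agent.TH22.UF

universe v u

section

variable {C : Type u} [Category.{v} C] [Abelian C] [Linear ℂ C] [HasFiniteBiproducts C]

variable {r : ℕ} {S : Fin r → C}

lemma exists_base (hfd : ∀ X Y : C, FiniteDimensional ℂ (X ⟶ Y)) (hS : IsSimpleList S) :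
    Nonempty (Base S) := by
  have h0 : ∀ a, 𝟙 (S a) ≠ 0 := fun a => by
    have := hS.simple a
    exact id_nonzero (S a)
  have h1 : ∀ a (f : S a ⟶ S a), ∃ c : ℂ, c • 𝟙 (S a) = f := fun a f => by
    have := hS.simple a
    exact endomorphism_simple_eq_smul_id ℂ f
  choose sc hsc using h1
  have hinj : ∀ a (c c' : ℂ), c • 𝟙 (S a) = c' • 𝟙 (S a) → c = c' := fun a c c' h =>
    smul_left_injective ℂ (h0 a) h
  refine ⟨⟨fun a => { toFun := sc a, map_add' := ?_, map_smul' := ?_ }, ?_, ?_, ?_⟩⟩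
  · intro f g
    apply hinj a
    rw [hsc, add_smul, hsc, hsc]
  · intro z f
    apply hinj a
    rw [hsc, RingHom.id_apply, smul_assoc, hsc]
  · intro a f
    exact (hsc a f).symm
  · intro a
    apply hinj a
    simp only [LinearMap.coe_mk, AddHom.coe_mk]
    rw [hsc, one_smul]
  · intro a b hab f
    have := hS.simple a
    have := hS.simple b
    by_contra hf
    have : IsIso f := isIso_of_hom_simple hf
    exact hab (hS.inj a b ⟨asIso f⟩)

lemma exists_hstr (hS : IsSimpleList S) (B : Base S)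
    (hss : ∀ X : C, ∃ (m : ℕ) (f : Fin m → C), (∀ k, Simple (f k)) ∧ Nonempty (X ≅ ⨁ f)) (X : C) :
    Nonempty (HStr S X) := by
  classical
  obtain ⟨m, f, hf, ⟨e⟩⟩ := hss X
  have h1 : ∀ k, ∃ i, Nonempty (f k ≅ S i) := fun k => hS.complete (f k) (hf k)
  choose idx hidx using h1
  let φ : ∀ k, f k ≅ S (idx k) := fun k => (hidx k).some
  refine ⟨⟨fun a => {k : Fin m // idx k = a}, fun a => inferInstance,
    fun a k => eqToHom (congrArg S k.2.symm) ≫ (φ k.1).inv ≫ biproduct.ι f k.1 ≫ e.inv,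
    fun a k => e.hom ≫ biproduct.π f k.1 ≫ (φ k.1).hom ≫ eqToHom (congrArg S k.2), ?_, ?_, ?_⟩⟩
  · rintro a ⟨k, rfl⟩
    simp
  · rintro a ⟨k, hk⟩ ⟨l, hl⟩ hkl
    have hkl' : k ≠ l := fun h => hkl (Subtype.ext h)
    simp only [Category.assoc, Iso.inv_hom_id_assoc]
    rw [biproduct.ι_π_ne_assoc f hkl']
    simp
  · have h2 : ∀ a, ∑ k : {k : Fin m // idx k = a}, (e.hom ≫ biproduct.π f k.1 ≫ (φ k.1).hom ≫
        eqToHom (congrArg S k.2)) ≫ eqToHom (congrArg S k.2.symm) ≫ (φ k.1).inv ≫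
        biproduct.ι f k.1 ≫ e.inv =
        ∑ k : {k : Fin m // idx k = a}, e.hom ≫ (biproduct.π f k.1 ≫ biproduct.ι f k.1) ≫ e.inv := by
      intro a
      refine Finset.sum_congr rfl fun k _ => ?_
      simp
    simp_rw [h2]
    have h3 : ∀ a, ∑ k : {k : Fin m // idx k = a}, e.hom ≫ (biproduct.π f k.1 ≫
        biproduct.ι f k.1) ≫ e.inv = ∑ k ∈ Finset.univ.filter (fun k => idx k = a),
        e.hom ≫ (biproduct.π f k ≫ biproduct.ι f k) ≫ e.inv := by
      intro a
      exact (Finset.sum_subtype (Finset.univ.filter (fun k => idx k = a)) (by simp)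
        (fun k => e.hom ≫ (biproduct.π f k ≫ biproduct.ι f k) ≫ e.inv)).symm
    simp_rw [h3]
    rw [Finset.sum_fiberwise_of_maps_to (g := idx) (t := Finset.univ)
      (fun _ _ => Finset.mem_univ _)]
    rw [← Preadditive.comp_sum, ← Preadditive.sum_comp, biproduct.total]
    simp

/-- Orthonormal decomposition with prescribed bases of the multiplicity spaces. -/
lemma exists_hstr_basis (B : Base S) {X : C} (h : HStr S X) (N : Fin r → ℕ)
    (b : ∀ c, Module.Basis (Fin (N c)) ℂ (S c ⟶ X)) :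
    ∃ prj : ∀ c, Fin (N c) → (X ⟶ S c), (∀ c s, b c s ≫ prj c s = 𝟙 (S c)) ∧
      (∀ c s t, s ≠ t → b c s ≫ prj c t = 0) ∧ ∑ c, ∑ s, prj c s ≫ b c s = 𝟙 X := by
  classical
  have h1 : ∀ c (x : S c ⟶ X), x = ∑ s, B.coef c (x ≫ h.prj c s) • h.inc c s := by
    intro c x
    have e : x = x ≫ (∑ a, ∑ s, h.prj a s ≫ h.inc a s) := by rw [h.total]; simp
    conv_lhs => rw [e]
    rw [Preadditive.comp_sum, Finset.sum_eq_single c]
    · rw [Preadditive.comp_sum]
      refine Finset.sum_congr rfl fun s _ => ?_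
      rw [← Category.assoc, B.smul_comp_eq]
    · intro a _ ha
      rw [Preadditive.comp_sum]
      refine Finset.sum_eq_zero fun s _ => ?_
      rw [← Category.assoc, B.hom_zero (Ne.symm ha) (x ≫ h.prj a s), zero_comp]
    · intro h; exact absurd (Finset.mem_univ _) h
  have h2 : ∀ c i j, b c j ≫ (∑ s, (b c).repr (h.inc c s) i • h.prj c s) =
      ((b c).repr (b c j) i) • 𝟙 (S c) := by
    intro c i j
    rw [Preadditive.comp_sum]
    conv_rhs => rw [h1 c (b c j)]
    rw [map_sum, Finsupp.finsetSum_apply, Finset.sum_smul]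
    refine Finset.sum_congr rfl fun s _ => ?_
    rw [Linear.comp_smul, map_smul, Finsupp.smul_apply, smul_eq_mul]
    conv_lhs => rw [B.coef_smul c (b c j ≫ h.prj c s)]
    rw [smul_smul, mul_comm]
  refine ⟨fun c i => ∑ s, (b c).repr (h.inc c s) i • h.prj c s, ?_, ?_, ?_⟩
  · intro c s
    rw [h2]
    simp
  · intro c s t hst
    rw [h2]
    simp [hst]
  · rw [← h.total]
    refine Finset.sum_congr rfl fun c _ => ?_
    simp_rw [Preadditive.sum_comp]
    rw [Finset.sum_comm]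
    refine Finset.sum_congr rfl fun s _ => ?_
    simp_rw [Linear.smul_comp, ← Linear.comp_smul]
    rw [← Preadditive.comp_sum, (b c).sum_repr]

lemma exists_retract (B : Base S) (hS : IsSimpleList S) {X Z : C} (hZ : HStr S Z) [Simple X]
    (f : X ⟶ Z) (hf : f ≠ 0) : ∃ s : Z ⟶ X, f ≫ s = 𝟙 X := by
  have h1 : ∃ a s, f ≫ hZ.prj a s ≠ 0 := by
    by_contra hcon
    push Not at hcon
    apply hf
    have : f = f ≫ ∑ a, ∑ s, hZ.prj a s ≫ hZ.inc a s := by rw [hZ.total, Category.comp_id]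
    rw [this, Preadditive.comp_sum]
    refine Finset.sum_eq_zero fun a _ => ?_
    rw [Preadditive.comp_sum]
    refine Finset.sum_eq_zero fun s _ => ?_
    rw [← Category.assoc, hcon, zero_comp]
  obtain ⟨a, s, hs⟩ := h1
  have := hS.simple a
  have : IsIso (f ≫ hZ.prj a s) := isIso_of_hom_simple hs
  exact ⟨hZ.prj a s ≫ inv (f ≫ hZ.prj a s), by
    rw [← Category.assoc, IsIso.hom_inv_id]⟩

end

section

variable {C : Type u} [Category.{v} C] [Abelian C] [Linear ℂ C] [HasFiniteBiproducts C]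
  [MonoidalCategory C] [MonoidalPreadditive C] [MonoidalLinear ℂ C] [RigidCategory C]

variable {r : ℕ} {S : Fin r → C}

lemma coev_ne_zero {X Y : C} [ExactPairing X Y] (hY : 𝟙 Y ≠ 0) : (η_ X Y) ≠ 0 := by
  intro h
  apply hY
  have h1 := ExactPairing.coevaluation_evaluation X Y
  rw [h] at h1
  have h2 : (ρ_ Y).hom ≫ (λ_ Y).inv = 0 := by
    rw [← h1]
    simp
  have h3 : 𝟙 Y = (ρ_ Y).inv ≫ ((ρ_ Y).hom ≫ (λ_ Y).inv) ≫ (λ_ Y).hom := by simp
  rw [h3, h2]; simp

lemma tensor_ne_zero_aux (B : Base S) (hS : IsSimpleList S)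
    (hstr : ∀ X : C, Nonempty (HStr S X))
    [Simple (𝟙_ C)] {X' X Y : C} [ExactPairing X' X] (hX : 𝟙 X ≠ 0) (hY : 𝟙 Y ≠ 0) :
    𝟙 (X ⊗ Y) ≠ 0 := by
  intro h
  apply hY
  obtain ⟨s, hs⟩ := exists_retract B hS (hstr (X' ⊗ X)).some (η_ X' X) (coev_ne_zero hX)
  have h1 : (𝟙 Y : Y ⟶ Y) = (λ_ Y).inv ≫ ((η_ X' X) ▷ Y ≫ s ▷ Y) ≫ (λ_ Y).hom := by
    rw [← comp_whiskerRight, hs]; simp
  have h2 : 𝟙 ((X' ⊗ X) ⊗ Y) = 0 := by
    have e : 𝟙 ((X' ⊗ X) ⊗ Y) = (α_ _ _ _).hom ≫ (X' ◁ 𝟙 (X ⊗ Y)) ≫ (α_ _ _ _).inv := by simp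
    rw [e, h]; simp
  rw [h1]
  have h3 : (η_ X' X) ▷ Y ≫ s ▷ Y = (η_ X' X) ▷ Y ≫ 𝟙 ((X' ⊗ X) ⊗ Y) ≫ s ▷ Y := by simp
  rw [h3, h2]; simp

lemma tensor_ne_zero (B : Base S) (hS : IsSimpleList S) (hstr : ∀ X : C, Nonempty (HStr S X))
    [Simple (𝟙_ C)] {X Y : C} (hX : 𝟙 X ≠ 0) (hY : 𝟙 Y ≠ 0) : 𝟙 (X ⊗ Y) ≠ 0 :=
  tensor_ne_zero_aux (X' := HasLeftDual.leftDual X) B hS hstr hX hY

/-- The unitary data attached to a gauge with unitary F-matrices. -/
lemma exists_udata (hC : IsFusionCategory C) (hS : IsSimpleList S) (g : Gauge S)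
    (hg : g.UnitaryF) : Nonempty (UData S) := by
  classical
  obtain ⟨B⟩ := exists_base hC.finiteDimensional_hom hS
  have hstr := exists_hstr hS B hC.semisimple
  have hsimp := hC.simple_unit
  have hV : ∀ a b, ∃ prj : ∀ c, Fin (g.N a b c) → (S a ⊗ S b ⟶ S c),
      (∀ c s, g.basis a b c s ≫ prj c s = 𝟙 (S c)) ∧
      (∀ c s t, s ≠ t → g.basis a b c s ≫ prj c t = 0) ∧
      ∑ c, ∑ s, prj c s ≫ g.basis a b c s = 𝟙 (S a ⊗ S b) :=
    fun a b => exists_hstr_basis B (hstr (S a ⊗ S b)).some (g.N a b) (g.basis a b)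
  choose prj hp1 hp2 hp3 using hV
  let V : ∀ a b, HStr S (S a ⊗ S b) := fun a b =>
    { J := fun c => Fin (g.N a b c)
      fin := fun c => inferInstance
      inc := fun c s => g.basis a b c s
      prj := fun c s => prj a b c s
      inc_prj_self := hp1 a b
      inc_prj_ne := hp2 a b
      total := hp3 a b }
  have hVu : UnitaryV V := by
    intro a b c d
    obtain ⟨F, hF1, hF2, -⟩ := hg a b c d
    refine ⟨F, ?_, ?_, ?_⟩
    · intro p
      have := hF1 p
      unfold Gauge.srcVec Gauge.tgtVec at this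
      rw [Category.assoc] at this
      exact this
    · intro p p' hpp
      have h := congrFun (congrFun hF2 p) p'
      rw [Matrix.mul_apply, Matrix.one_apply, if_neg hpp] at h
      simp_rw [Matrix.conjTranspose_apply] at h
      exact h
    · intro p
      have h := congrFun (congrFun hF2 p) p
      rw [Matrix.mul_apply, Matrix.one_apply, if_pos rfl] at h
      simp_rw [Matrix.conjTranspose_apply] at h
      exact h
  have hne : ∀ a, 𝟙 (S a) ≠ 0 := fun a => by
    have := hS.simple a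
    exact id_nonzero (S a)
  have hnt : ∀ a b, ∃ d, Nonempty ((V a b).J d) := by
    intro a b
    by_contra hcon
    push Not at hcon
    apply tensor_ne_zero B hS hstr (hne a) (hne b)
    rw [← (V a b).total]
    refine Finset.sum_eq_zero fun c _ => ?_
    have := hcon c
    simp
  obtain ⟨a₀, ⟨e⟩⟩ := hS.complete (𝟙_ C) hsimp
  let u : S a₀ ≅ 𝟙_ C := e.symm
  -- the common absolute value
  obtain ⟨j₀⟩ := nonempty_left B V u hne a₀
  obtain ⟨i₀⟩ := nonempty_right B V u hne a₀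
  let κ : ℝ := ‖zl B V u a₀ j₀‖
  have hr : ∀ a i, ‖zr B V u a i‖ = κ := fun a i => norm_zr_eq_zl B u hVu hnt a a₀ i j₀
  have hl : ∀ b j, ‖zl B V u b j‖ = κ := fun b j => by
    rw [← norm_zr_eq_zl B u hVu hnt a₀ b i₀ j, hr]
  have hκ : κ ≠ 0 := by
    intro h
    have h1 := zl_mul B V u a₀ j₀
    rw [norm_eq_zero.mp h, zero_mul] at h1
    exact zero_ne_one h1
  have hκ' : (κ : ℂ) ≠ 0 := by exact_mod_cast hκ
  let u' : S a₀ ≅ 𝟙_ C :=
    { hom := (κ : ℂ)⁻¹ • u.hom
      inv := (κ : ℂ) • u.inv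
      hom_inv_id := by
        rw [Linear.smul_comp, Linear.comp_smul, smul_smul, inv_mul_cancel₀ hκ', one_smul,
          u.hom_inv_id]
      inv_hom_id := by
        rw [Linear.smul_comp, Linear.comp_smul, smul_smul, mul_inv_cancel₀ hκ', one_smul,
          u.inv_hom_id] }
  refine ⟨⟨B, V, a₀, u', hVu, ?_, ?_⟩⟩
  · intro b i
    have h1 : zl B V u' b i = (κ : ℂ)⁻¹ * zl B V u b i := by
      unfold zl
      change B.coef b ((V a₀ b).inc b i ≫ ((((κ : ℂ)⁻¹ • u.hom)) ▷ S b) ≫ (λ_ (S b)).hom) = _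
      simp
    rw [h1, norm_mul, hl b i, norm_inv, Complex.norm_real, Real.norm_of_nonneg (norm_nonneg _)]
    exact inv_mul_cancel₀ hκ
  · intro a i
    have h1 : zr B V u' a i = (κ : ℂ)⁻¹ * zr B V u a i := by
      unfold zr
      change B.coef a ((V a a₀).inc a i ≫ (S a ◁ (((κ : ℂ)⁻¹ • u.hom))) ≫ (ρ_ (S a)).hom) = _
      simp
    rw [h1, norm_mul, hr a i, norm_inv, Complex.norm_real, Real.norm_of_nonneg (norm_nonneg _)]
    exact inv_mul_cancel₀ hκ

/-- A fusion category with a gauge with unitary F-matrices is unitary. -/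
theorem isUnitary_of_unitaryF (hC : IsFusionCategory C) (hS : IsSimpleList S) (g : Gauge S)
    (hg : g.UnitaryF) : IsUnitary C := by
  obtain ⟨𝒟⟩ := exists_udata hC hS g hg
  have hstr := exists_hstr hS 𝒟.B hC.semisimple
  have : (forgetF (𝒟 := 𝒟)).EssSurj := ⟨fun X => ⟨⟨X, (hstr X).some⟩, ⟨Iso.refl _⟩⟩⟩
  exact ⟨HObj 𝒟, inferInstance, inferInstance, inferInstance, inferInstance, cstar, forgetF,
    inferInstance, inferInstance, inferInstance, { }⟩

end

end Pool.Agent.TH22.UF
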