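import Pool.Agent.TH22.UF.UnitObj

/-!
# The C*-tensor category of decomposed objects
-/

set_option autoImplicit false
set_option linter.unusedSectionVars false
set_option linter.unusedVariables false

open CategoryTheory CategoryTheory.Limits MonoidalCategory

namespace Pool.Agent.TH22.UF

universe v u

section

variable {C : Type u} [Category.{v} C] [Preadditive C] [Linear ℂ C] [MonoidalCategory C]
  [MonoidalPreadditive C] [MonoidalLinear ℂ C]

/-- All the data needed for the unitary structure. -/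
structure UData {r : ℕ} (S : Fin r → C) where
  B : Base S
  V : ∀ a b, HStr S (S a ⊗ S b)
  a₀ : Fin r
  u : S a₀ ≅ 𝟙_ C
  hV : UnitaryV V
  hzl : ∀ b i, ‖zl B V u b i‖ = 1
  hzr : ∀ a i, ‖zr B V u a i‖ = 1

variable {r : ℕ} {S : Fin r → C}

/-- Decomposed objects. -/
structure HObj (𝒟 : UData S) where
  X : C
  str : HStr S X

variable {𝒟 : UData S}

instance : Category.{v} (HObj 𝒟) where
  Hom X Y := X.X ⟶ Y.X
  id X := 𝟙 X.X
  comp f g := CategoryStruct.comp (obj := C) f g
  id_comp f := Category.id_comp (obj := C) f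
  comp_id f := Category.comp_id (obj := C) f
  assoc f g h := Category.assoc (obj := C) f g h

instance : Preadditive (HObj 𝒟) where
  homGroup X Y := inferInstanceAs (AddCommGroup (X.X ⟶ Y.X))
  add_comp X Y Z f f' g := Preadditive.add_comp (C := C) _ _ _ f f' g
  comp_add X Y Z f g g' := Preadditive.comp_add (C := C) _ _ _ f g g'

instance : Linear ℂ (HObj 𝒟) where
  homModule X Y := inferInstanceAs (Module ℂ (X.X ⟶ Y.X))
  smul_comp X Y Z r f g := Linear.smul_comp (C := C) _ _ _ r f g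
  comp_smul X Y Z f r g := Linear.comp_smul (C := C) _ _ _ f r g

/-- Isomorphisms of decomposed objects. -/
def mkIso {X Y : HObj 𝒟} (e : X.X ≅ Y.X) : X ≅ Y where
  hom := e.hom
  inv := e.inv
  hom_inv_id := e.hom_inv_id
  inv_hom_id := e.inv_hom_id

noncomputable instance : MonoidalCategoryStruct (HObj 𝒟) where
  tensorObj X Y := ⟨X.X ⊗ Y.X, tensorStr 𝒟.B 𝒟.V X.str Y.str⟩
  whiskerLeft X _ _ f := MonoidalCategoryStruct.whiskerLeft (C := C) X.X f
  whiskerRight f Y := MonoidalCategoryStruct.whiskerRight (C := C) f Y.X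
  tensorHom f g := MonoidalCategoryStruct.tensorHom (C := C) f g
  tensorUnit := ⟨𝟙_ C, isoStr 𝒟.a₀ 𝒟.u⟩
  associator X Y Z := mkIso (α_ X.X Y.X Z.X)
  leftUnitor X := mkIso (λ_ X.X)
  rightUnitor X := mkIso (ρ_ X.X)

noncomputable instance : MonoidalCategory (HObj 𝒟) where
  tensorHom_def f g := MonoidalCategory.tensorHom_def (C := C) f g
  id_tensorHom_id X Y := MonoidalCategory.id_tensorHom_id (C := C) X.X Y.X
  tensorHom_comp_tensorHom f f' g g' :=
    MonoidalCategory.tensorHom_comp_tensorHom (C := C) f f' g g'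
  whiskerLeft_id X Y := MonoidalCategory.whiskerLeft_id (C := C) X.X Y.X
  id_whiskerRight X Y := MonoidalCategory.id_whiskerRight (C := C) X.X Y.X
  associator_naturality f g h := MonoidalCategory.associator_naturality (C := C) f g h
  leftUnitor_naturality f := MonoidalCategory.leftUnitor_naturality (C := C) f
  rightUnitor_naturality f := MonoidalCategory.rightUnitor_naturality (C := C) f
  pentagon W X Y Z := MonoidalCategory.pentagon (C := C) W.X X.X Y.X Z.X
  triangle X Y := MonoidalCategory.triangle (C := C) X.X Y.X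

/-- The C*-structure. -/
noncomputable def cstar : CStarTensorStructure (HObj 𝒟) where
  star {X Y} f := adj 𝒟.B X.str Y.str f
  norm {X Y} f := opNorm 𝒟.B X.str Y.str f
  star_add f g := adj_add 𝒟.B _ _ f g
  star_smul z f := adj_smul 𝒟.B _ _ z f
  star_star f := adj_adj 𝒟.B _ _ f
  star_comp f g := adj_comp 𝒟.B _ _ _ f g
  norm_add_le f g := opNorm_add_le 𝒟.B _ _ f g
  norm_smul z f := opNorm_smul 𝒟.B _ _ z f
  eq_zero_of_norm f h := eq_zero_of_opNorm 𝒟.B _ _ f h
  complete f h := opNorm_complete 𝒟.B _ _ f h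
  norm_comp_le f g := opNorm_comp_le 𝒟.B _ _ _ f g
  norm_comp_star f := opNorm_comp_adj 𝒟.B _ _ f
  positive f := exists_sq 𝒟.B _ _ f
  star_tensorHom f g := adj_tensorHom 𝒟.B 𝒟.V _ _ _ _ f g
  star_associator X Y Z := adj_associator 𝒟.B 𝒟.hV X.str Y.str Z.str
  star_leftUnitor X := adj_leftUnitor 𝒟.B 𝒟.V 𝒟.u 𝒟.hzl X.str
  star_rightUnitor X := adj_rightUnitor 𝒟.B 𝒟.V 𝒟.u 𝒟.hzr X.str

/-- The forgetful functor. -/
@[simps]
def forgetF : HObj 𝒟 ⥤ C where
  obj X := X.X
  map f := f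
  map_id _ := rfl
  map_comp _ _ := rfl

instance : (forgetF (𝒟 := 𝒟)).Full where
  map_surjective f := ⟨f, rfl⟩

instance : (forgetF (𝒟 := 𝒟)).Faithful where
  map_injective h := h

instance : (forgetF (𝒟 := 𝒟)).Additive where
  map_add := rfl

instance : (forgetF (𝒟 := 𝒟)).Linear ℂ where
  map_smul _ _ := rfl

noncomputable instance : (forgetF (𝒟 := 𝒟)).Monoidal :=
  Functor.CoreMonoidal.toMonoidal
    { εIso := Iso.refl _
      μIso := fun X Y => Iso.refl _
      μIso_hom_natural_left := fun f X =>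
        (Category.comp_id (obj := C) _).trans (Category.id_comp (obj := C) _).symm
      μIso_hom_natural_right := fun X f =>
        (Category.comp_id (obj := C) _).trans (Category.id_comp (obj := C) _).symm
      associativity := fun X Y Z => by
        change (𝟙 (X.X ⊗ Y.X) ▷ Z.X) ≫ 𝟙 ((X.X ⊗ Y.X) ⊗ Z.X) ≫ (α_ X.X Y.X Z.X).hom =
          (α_ X.X Y.X Z.X).hom ≫ (X.X ◁ 𝟙 (Y.X ⊗ Z.X)) ≫ 𝟙 (X.X ⊗ (Y.X ⊗ Z.X))
        simp
      left_unitality := fun X => by
        change (λ_ X.X).hom = (𝟙 (𝟙_ C) ▷ X.X) ≫ 𝟙 (𝟙_ C ⊗ X.X) ≫ (λ_ X.X).hom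
        simp
      right_unitality := fun X => by
        change (ρ_ X.X).hom = (X.X ◁ 𝟙 (𝟙_ C)) ≫ 𝟙 (X.X ⊗ 𝟙_ C) ≫ (ρ_ X.X).hom
        simp }

end

end Pool.Agent.TH22.UF
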