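import Mathlib

/-!
# Unitary F-matrices and unitarity of fusion categories: definitions
-/

set_option autoImplicit false

open CategoryTheory CategoryTheory.Limits MonoidalCategory

namespace Pool.Agent.TH22.UF

universe v u v' u'

section Fusion

variable (C : Type u) [Category.{v} C] [Abelian C] [Linear ℂ C] [HasFiniteBiproducts C]
  [MonoidalCategory C] [MonoidalPreadditive C] [MonoidalLinear ℂ C] [RigidCategory C]

/-- A fusion category over `ℂ`: an abelian `ℂ`-linear rigid monoidal category (with bilinear tensor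
product) with finite dimensional Hom spaces, simple unit object, in which every object is a finite
direct sum of simple objects, and with finitely many isomorphism classes of simple objects. -/
structure IsFusionCategory : Prop where
  finiteDimensional_hom : ∀ X Y : C, FiniteDimensional ℂ (X ⟶ Y)
  simple_unit : Simple (𝟙_ C)
  semisimple : ∀ X : C, ∃ (m : ℕ) (f : Fin m → C), (∀ k, Simple (f k)) ∧ Nonempty (X ≅ ⨁ f)
  finitely_many_simples : ∃ (m : ℕ) (S : Fin m → C), ∀ X : C, Simple X → ∃ i, Nonempty (X ≅ S i)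

end Fusion

section GaugeDefs

variable {C : Type u} [Category.{v} C] [Preadditive C] [Linear ℂ C] [MonoidalCategory C]

/-- `S` is a list of representatives of the simple objects, one for each isomorphism class. -/
structure IsSimpleList {r : ℕ} (S : Fin r → C) : Prop where
  simple : ∀ i, Simple (S i)
  inj : ∀ i j, Nonempty (S i ≅ S j) → i = j
  complete : ∀ X : C, Simple X → ∃ i, Nonempty (X ≅ S i)

/-- A gauge: a basis of each of the spaces `V^{ab}_c = Hom (c, a ⊗ b)`, for `a`, `b`, `c` in the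
list `S` of simple objects. -/
structure Gauge {r : ℕ} (S : Fin r → C) where
  /-- the dimension of `V^{ab}_c` -/
  N : Fin r → Fin r → Fin r → ℕ
  /-- the basis of `V^{ab}_c` -/
  basis : ∀ a b c : Fin r, Module.Basis (Fin (N a b c)) ℂ (S c ⟶ S a ⊗ S b)

variable {r : ℕ} {S : Fin r → C}

/-- The index set of the product basis of `⨁_e V^{ab}_e ⊗ V^{ec}_d`. -/
abbrev Gauge.Src (g : Gauge S) (a b c d : Fin r) : Type :=
  Σ e : Fin r, Fin (g.N a b e) × Fin (g.N e c d)

/-- The index set of the product basis of `⨁_f V^{bc}_f ⊗ V^{af}_d`. -/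
abbrev Gauge.Tgt (g : Gauge S) (a b c d : Fin r) : Type :=
  Σ f : Fin r, Fin (g.N b c f) × Fin (g.N a f d)

/-- The morphism `d ⟶ (a ⊗ b) ⊗ c` attached to a product basis vector `(v, w)` of
`⨁_e V^{ab}_e ⊗ V^{ec}_d`: first `w : d ⟶ e ⊗ c`, then `v ⊗ c : e ⊗ c ⟶ (a ⊗ b) ⊗ c`. -/
noncomputable def Gauge.srcVec (g : Gauge S) (a b c d : Fin r) (p : g.Src a b c d) :
    S d ⟶ (S a ⊗ S b) ⊗ S c :=
  g.basis p.1 c d p.2.2 ≫ (g.basis a b p.1 p.2.1 ▷ S c)

/-- The morphism `d ⟶ a ⊗ (b ⊗ c)` attached to a product basis vector `(x, y)` of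
`⨁_f V^{bc}_f ⊗ V^{af}_d`: first `y : d ⟶ a ⊗ f`, then `a ⊗ x : a ⊗ f ⟶ a ⊗ (b ⊗ c)`. -/
noncomputable def Gauge.tgtVec (g : Gauge S) (a b c d : Fin r) (q : g.Tgt a b c d) :
    S d ⟶ S a ⊗ (S b ⊗ S c) :=
  g.basis a q.1 d q.2.2 ≫ (S a ◁ g.basis b c q.1 q.2.1)

/-- `F` is the F-matrix `F^{abc}_d` of the gauge `g`: the matrix, in the product bases, of the map
`⨁_e V^{ab}_e ⊗ V^{ec}_d → ⨁_f V^{bc}_f ⊗ V^{af}_d` induced by the associator
`(a ⊗ b) ⊗ c ≅ a ⊗ (b ⊗ c)`. -/
def Gauge.IsFMatrix (g : Gauge S) (a b c d : Fin r)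
    (F : Matrix (g.Tgt a b c d) (g.Src a b c d) ℂ) : Prop :=
  ∀ p : g.Src a b c d, g.srcVec a b c d p ≫ (α_ (S a) (S b) (S c)).hom =
    ∑ q : g.Tgt a b c d, F q p • g.tgtVec a b c d q

/-- All the F-matrices of the gauge `g` are unitary. -/
def Gauge.UnitaryF (g : Gauge S) : Prop :=
  ∀ a b c d : Fin r, ∃ F : Matrix (g.Tgt a b c d) (g.Src a b c d) ℂ,
    g.IsFMatrix a b c d F ∧ F.conjTranspose * F = 1 ∧ F * F.conjTranspose = 1

end GaugeDefs

section CStar

/-- The structure of a C*-tensor category on a `ℂ`-linear monoidal category `D` : an antilinear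
involutive contravariant `star` operation which is the identity on objects, complete norms on the
Hom spaces which are submultiplicative and satisfy the C*-identity, such that all the
endomorphisms `f* f` are positive, the tensor product of morphisms is compatible with the star
operation and the associator and the unit constraints are unitary. (Composition is written in the
diagrammatic order, so that `f ≫ star f` is the endomorphism `f* f` of the source of `f`.) -/
structure CStarTensorStructure (D : Type u) [Category.{v} D] [Preadditive D] [Linear ℂ D]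
    [MonoidalCategory D] where
  /-- the adjoint of a morphism -/
  star : ∀ {X Y : D}, (X ⟶ Y) → (Y ⟶ X)
  /-- the norm of a morphism -/
  norm : ∀ {X Y : D}, (X ⟶ Y) → ℝ
  star_add : ∀ {X Y : D} (f g : X ⟶ Y), star (f + g) = star f + star g
  star_smul : ∀ {X Y : D} (z : ℂ) (f : X ⟶ Y), star (z • f) = (starRingEnd ℂ z) • star f
  star_star : ∀ {X Y : D} (f : X ⟶ Y), star (star f) = f
  star_comp : ∀ {X Y Z : D} (f : X ⟶ Y) (g : Y ⟶ Z), star (f ≫ g) = star g ≫ star f
  norm_add_le : ∀ {X Y : D} (f g : X ⟶ Y), norm (f + g) ≤ norm f + norm g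
  norm_smul : ∀ {X Y : D} (z : ℂ) (f : X ⟶ Y), norm (z • f) = ‖z‖ * norm f
  eq_zero_of_norm : ∀ {X Y : D} (f : X ⟶ Y), norm f = 0 → f = 0
  complete : ∀ {X Y : D} (f : ℕ → (X ⟶ Y)),
    (∀ ε : ℝ, 0 < ε → ∃ n₀ : ℕ, ∀ m ≥ n₀, ∀ n ≥ n₀, norm (f m - f n) < ε) →
    ∃ l : X ⟶ Y, ∀ ε : ℝ, 0 < ε → ∃ n₀ : ℕ, ∀ n ≥ n₀, norm (f n - l) < ε
  norm_comp_le : ∀ {X Y Z : D} (f : X ⟶ Y) (g : Y ⟶ Z), norm (f ≫ g) ≤ norm f * norm g
  norm_comp_star : ∀ {X Y : D} (f : X ⟶ Y), norm (f ≫ star f) = norm f ^ 2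
  positive : ∀ {X Y : D} (f : X ⟶ Y), ∃ g : X ⟶ X, f ≫ star f = g ≫ star g
  star_tensorHom : ∀ {X Y X' Y' : D} (f : X ⟶ Y) (g : X' ⟶ Y'),
    star (f ⊗ₘ g) = star f ⊗ₘ star g
  star_associator : ∀ X Y Z : D, star (α_ X Y Z).hom = (α_ X Y Z).inv
  star_leftUnitor : ∀ X : D, star (λ_ X).hom = (λ_ X).inv
  star_rightUnitor : ∀ X : D, star (ρ_ X).hom = (ρ_ X).inv

variable (C : Type u) [Category.{v} C] [Preadditive C] [Linear ℂ C] [MonoidalCategory C]

/-- `C` is unitary: it is `ℂ`-linearly monoidally equivalent to a C*-tensor category. -/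
def IsUnitary : Prop :=
  ∃ (D : Type (max u v 1)) (_ : Category.{v} D) (_ : Preadditive D) (_ : Linear ℂ D)
    (_ : MonoidalCategory D) (_ : CStarTensorStructure D) (F : D ⥤ C) (_ : F.Monoidal)
    (_ : F.Additive), F.Linear ℂ ∧ F.IsEquivalence

/-- The braided category `C` is unitary: there is a braided `ℂ`-linear monoidal equivalence with a
braided C*-tensor category with unitary braiding. -/
def IsBraidedUnitary [BraidedCategory C] : Prop :=
  ∃ (D : Type (max u v 1)) (_ : Category.{v} D) (_ : Preadditive D) (_ : Linear ℂ D)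
    (_ : MonoidalCategory D) (_ : BraidedCategory D) (s : CStarTensorStructure D) (F : D ⥤ C)
    (_ : F.Braided) (_ : F.Additive), F.Linear ℂ ∧ F.IsEquivalence ∧
      ∀ X Y : D, s.star (β_ X Y).hom = (β_ X Y).inv

end CStar

end Pool.Agent.TH22.UF
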