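import Pool.Agent.TH22.UF.Defs

/-!
# Orthonormal decompositions and adjoints of morphisms
-/

set_option autoImplicit false
set_option linter.unusedSectionVars false

open CategoryTheory CategoryTheory.Limits MonoidalCategory

namespace Pool.Agent.TH22.UF

universe v u

section

variable {C : Type u} [Category.{v} C] [Preadditive C] [Linear ℂ C]

/-- Scalars of the endomorphisms of the members of the list `S`. -/
structure Base {r : ℕ} (S : Fin r → C) where
  coef : ∀ a, (S a ⟶ S a) →ₗ[ℂ] ℂ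
  coef_smul : ∀ a (f : S a ⟶ S a), f = coef a f • 𝟙 (S a)
  coef_id : ∀ a, coef a (𝟙 (S a)) = 1
  hom_zero : ∀ {a b : Fin r} (_ : a ≠ b) (f : S a ⟶ S b), f = 0

variable {r : ℕ} (S : Fin r → C)

/-- A decomposition of `X` into members of `S`. -/
structure HStr (X : C) where
  J : Fin r → Type
  fin : ∀ a, Fintype (J a)
  inc : ∀ a, J a → (S a ⟶ X)
  prj : ∀ a, J a → (X ⟶ S a)
  inc_prj_self : ∀ a s, inc a s ≫ prj a s = 𝟙 (S a)
  inc_prj_ne : ∀ a s t, s ≠ t → inc a s ≫ prj a t = 0
  total : ∑ a, ∑ s, prj a s ≫ inc a s = 𝟙 X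

attribute [instance] HStr.fin

variable {S} (B : Base S)

namespace Base

lemma coef_smul_id (a : Fin r) (z : ℂ) : B.coef a (z • 𝟙 (S a)) = z := by
  rw [map_smul, B.coef_id, smul_eq_mul, mul_one]

lemma coef_comp (a : Fin r) (f g : S a ⟶ S a) : B.coef a (f ≫ g) = B.coef a f * B.coef a g := by
  conv_lhs => rw [B.coef_smul a f, B.coef_smul a g]
  simp [B.coef_id, mul_comm]

lemma smul_comp_eq {a : Fin r} {Y : C} (f : S a ⟶ S a) (g : S a ⟶ Y) :
    f ≫ g = B.coef a f • g := by
  conv_lhs => rw [B.coef_smul a f]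
  simp

lemma comp_smul_eq {a : Fin r} {Y : C} (g : Y ⟶ S a) (f : S a ⟶ S a) :
    g ≫ f = B.coef a f • g := by
  conv_lhs => rw [B.coef_smul a f]
  simp

end Base

open scoped Classical in
lemma HStr.inc_prj {X : C} (h : HStr S X) (a : Fin r) (s t : h.J a) :
    h.inc a s ≫ h.prj a t = if s = t then 𝟙 (S a) else 0 := by
  split_ifs with e
  · subst e; exact h.inc_prj_self a s
  · exact h.inc_prj_ne a s t e

include B in
lemma HStr.inc_prj_label {X : C} (h : HStr S X) {a b : Fin r} (hab : a ≠ b) (s : h.J a)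
    (t : h.J b) : h.inc a s ≫ h.prj b t = 0 := B.hom_zero hab _

section mat

variable {X Y Z W : C} (hX : HStr S X) (hY : HStr S Y) (hZ : HStr S Z) (hW : HStr S W)

/-- The morphism with a given family of matrices. -/
noncomputable def ofMat (M : ∀ a, Matrix (hX.J a) (hY.J a) ℂ) : X ⟶ Y :=
  ∑ a, ∑ s, ∑ t, M a s t • (hX.prj a s ≫ hY.inc a t)

/-- The matrices of a morphism. -/
noncomputable def mat (f : X ⟶ Y) (a : Fin r) : Matrix (hX.J a) (hY.J a) ℂ :=
  fun s t => B.coef a (hX.inc a s ≫ f ≫ hY.prj a t)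

include B in
lemma inc_ofMat (M : ∀ a, Matrix (hX.J a) (hY.J a) ℂ) (a : Fin r) (s : hX.J a) :
    hX.inc a s ≫ ofMat hX hY M = ∑ t, M a s t • hY.inc a t := by
  classical
  unfold ofMat
  rw [Preadditive.comp_sum, Finset.sum_eq_single a]
  · rw [Preadditive.comp_sum, Finset.sum_eq_single s]
    · rw [Preadditive.comp_sum]
      refine Finset.sum_congr rfl fun t _ => ?_
      rw [Linear.comp_smul, ← Category.assoc, hX.inc_prj_self, Category.id_comp]
    · intro s' _ hs
      rw [Preadditive.comp_sum]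
      refine Finset.sum_eq_zero fun t _ => ?_
      rw [Linear.comp_smul, ← Category.assoc, hX.inc_prj_ne a s s' (Ne.symm hs), zero_comp,
        smul_zero]
    · intro h; exact absurd (Finset.mem_univ _) h
  · intro b _ hb
    rw [Preadditive.comp_sum]
    refine Finset.sum_eq_zero fun s' _ => ?_
    rw [Preadditive.comp_sum]
    refine Finset.sum_eq_zero fun t _ => ?_
    rw [Linear.comp_smul, ← Category.assoc, hX.inc_prj_label B (Ne.symm hb), zero_comp, smul_zero]
  · intro h; exact absurd (Finset.mem_univ _) h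

include B in
lemma ofMat_prj (M : ∀ a, Matrix (hX.J a) (hY.J a) ℂ) (a : Fin r) (t : hY.J a) :
    ofMat hX hY M ≫ hY.prj a t = ∑ s, M a s t • hX.prj a s := by
  classical
  unfold ofMat
  rw [Preadditive.sum_comp, Finset.sum_eq_single a]
  · rw [Preadditive.sum_comp]
    refine Finset.sum_congr rfl fun s _ => ?_
    rw [Preadditive.sum_comp, Finset.sum_eq_single t]
    · rw [Linear.smul_comp, Category.assoc, hY.inc_prj_self, Category.comp_id]
    · intro t' _ ht
      rw [Linear.smul_comp, Category.assoc, hY.inc_prj_ne a t' t ht, comp_zero, smul_zero]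
    · intro h; exact absurd (Finset.mem_univ _) h
  · intro b _ hb
    rw [Preadditive.sum_comp]
    refine Finset.sum_eq_zero fun s' _ => ?_
    rw [Preadditive.sum_comp]
    refine Finset.sum_eq_zero fun t _ => ?_
    rw [Linear.smul_comp, Category.assoc, hY.inc_prj_label B hb, comp_zero, smul_zero]
  · intro h; exact absurd (Finset.mem_univ _) h

lemma mat_ofMat (M : ∀ a, Matrix (hX.J a) (hY.J a) ℂ) : mat B hX hY (ofMat hX hY M) = M := by
  classical
  funext a
  ext s t
  unfold mat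
  rw [← Category.assoc, inc_ofMat B, Preadditive.sum_comp, Finset.sum_eq_single t]
  · rw [Linear.smul_comp, hY.inc_prj_self, B.coef_smul_id]
  · intro t' _ ht
    rw [Linear.smul_comp, hY.inc_prj_ne a t' t ht, smul_zero]
  · intro h; exact absurd (Finset.mem_univ _) h

lemma ofMat_mat (f : X ⟶ Y) : ofMat hX hY (mat B hX hY f) = f := by
  classical
  have e : f = (∑ a, ∑ s, hX.prj a s ≫ hX.inc a s) ≫ f ≫ (∑ b, ∑ t, hY.prj b t ≫ hY.inc b t) := by
    rw [hX.total, hY.total]; simp
  conv_rhs => rw [e]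
  unfold ofMat
  rw [Preadditive.sum_comp]
  refine Finset.sum_congr rfl fun a _ => ?_
  rw [Preadditive.sum_comp]
  refine Finset.sum_congr rfl fun s _ => ?_
  rw [Preadditive.comp_sum, Preadditive.comp_sum, Finset.sum_eq_single a]
  · rw [Preadditive.comp_sum, Preadditive.comp_sum]
    refine Finset.sum_congr rfl fun t _ => ?_
    have e2 : (hX.prj a s ≫ hX.inc a s) ≫ f ≫ hY.prj a t ≫ hY.inc a t =
        hX.prj a s ≫ (hX.inc a s ≫ f ≫ hY.prj a t) ≫ hY.inc a t := by simp
    rw [e2, B.smul_comp_eq, Linear.comp_smul]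
    rfl
  · intro b _ hb
    rw [Preadditive.comp_sum, Preadditive.comp_sum]
    refine Finset.sum_eq_zero fun t _ => ?_
    have e2 : (hX.prj a s ≫ hX.inc a s) ≫ f ≫ hY.prj b t ≫ hY.inc b t =
        hX.prj a s ≫ (hX.inc a s ≫ f ≫ hY.prj b t) ≫ hY.inc b t := by simp
    rw [e2, B.hom_zero (Ne.symm hb) (hX.inc a s ≫ f ≫ hY.prj b t)]
    simp
  · intro h; exact absurd (Finset.mem_univ _) h

lemma mat_injective {f g : X ⟶ Y} (h : mat B hX hY f = mat B hX hY g) : f = g := by
  rw [← ofMat_mat B hX hY f, h, ofMat_mat]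

lemma mat_comp (f : X ⟶ Y) (g : Y ⟶ Z) (a : Fin r) :
    mat B hX hZ (f ≫ g) a = mat B hX hY f a * mat B hY hZ g a := by
  ext s t
  rw [Matrix.mul_apply]
  have e : hX.inc a s ≫ (f ≫ g) ≫ hZ.prj a t =
      ∑ u, mat B hX hY f a s u • (hY.inc a u ≫ g ≫ hZ.prj a t) := by
    have e1 : hX.inc a s ≫ f = ∑ u, mat B hX hY f a s u • hY.inc a u := by
      conv_lhs => rw [← ofMat_mat B hX hY f]
      rw [inc_ofMat B]
    have e2 : hX.inc a s ≫ (f ≫ g) ≫ hZ.prj a t = (hX.inc a s ≫ f) ≫ g ≫ hZ.prj a t := by simp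
    rw [e2, e1, Preadditive.sum_comp]
    simp
  unfold mat at e ⊢
  rw [e, map_sum]
  simp

open scoped Classical in
lemma mat_id (a : Fin r) : mat B hX hX (𝟙 X) a = 1 := by
  ext s t
  unfold mat
  rw [Category.id_comp, hX.inc_prj, Matrix.one_apply]
  split_ifs
  · exact B.coef_id a
  · exact map_zero _

lemma mat_add (f g : X ⟶ Y) (a : Fin r) :
    mat B hX hY (f + g) a = mat B hX hY f a + mat B hX hY g a := by
  ext s t
  simp [mat]

lemma mat_smul (z : ℂ) (f : X ⟶ Y) (a : Fin r) :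
    mat B hX hY (z • f) a = z • mat B hX hY f a := by
  ext s t
  simp [mat]

lemma mat_zero (a : Fin r) : mat B hX hY (0 : X ⟶ Y) a = 0 := by
  ext s t
  simp [mat]

lemma mat_sub (f g : X ⟶ Y) (a : Fin r) :
    mat B hX hY (f - g) a = mat B hX hY f a - mat B hX hY g a := by
  ext s t
  simp [mat]

/-- The adjoint of a morphism between decomposed objects. -/
noncomputable def adj (f : X ⟶ Y) : Y ⟶ X :=
  ofMat hY hX fun a => (mat B hX hY f a).conjTranspose

lemma mat_adj (f : X ⟶ Y) (a : Fin r) :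
    mat B hY hX (adj B hX hY f) a = (mat B hX hY f a).conjTranspose := by
  unfold adj
  rw [mat_ofMat]

lemma adj_add (f g : X ⟶ Y) : adj B hX hY (f + g) = adj B hX hY f + adj B hX hY g := by
  apply mat_injective B hY hX
  funext a
  simp only [mat_adj, mat_add, Matrix.conjTranspose_add]

lemma adj_smul (z : ℂ) (f : X ⟶ Y) :
    adj B hX hY (z • f) = (starRingEnd ℂ z) • adj B hX hY f := by
  apply mat_injective B hY hX
  funext a
  simp only [mat_adj, mat_smul, Matrix.conjTranspose_smul]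
  rfl

lemma adj_zero : adj B hX hY (0 : X ⟶ Y) = 0 := by
  apply mat_injective B hY hX
  funext a
  simp only [mat_adj, mat_zero, Matrix.conjTranspose_zero]

lemma adj_adj (f : X ⟶ Y) : adj B hY hX (adj B hX hY f) = f := by
  apply mat_injective B hX hY
  funext a
  simp only [mat_adj, Matrix.conjTranspose_conjTranspose]

lemma adj_comp (f : X ⟶ Y) (g : Y ⟶ Z) :
    adj B hX hZ (f ≫ g) = adj B hY hZ g ≫ adj B hX hY f := by
  apply mat_injective B hZ hX
  funext a
  rw [mat_comp B hZ hY hX]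
  simp only [mat_adj, mat_comp B hX hY hZ, Matrix.conjTranspose_mul]

lemma adj_sum {κ : Type*} (s : Finset κ) (f : κ → (X ⟶ Y)) :
    adj B hX hY (∑ k ∈ s, f k) = ∑ k ∈ s, adj B hX hY (f k) := by
  classical
  induction s using Finset.induction_on with
  | empty => simp [adj_zero]
  | insert a s ha ih => rw [Finset.sum_insert ha, Finset.sum_insert ha, adj_add, ih]

lemma adj_prj_inc (a : Fin r) (s : hX.J a) (t : hY.J a) :
    adj B hX hY (hX.prj a s ≫ hY.inc a t) = hY.prj a t ≫ hX.inc a s := by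
  classical
  apply mat_injective B hY hX
  funext b
  ext t' s'
  rw [mat_adj, Matrix.conjTranspose_apply]
  unfold mat
  have e1 : hX.inc b s' ≫ (hX.prj a s ≫ hY.inc a t) ≫ hY.prj b t' =
      (hX.inc b s' ≫ hX.prj a s) ≫ (hY.inc a t ≫ hY.prj b t') := by simp
  have e2 : hY.inc b t' ≫ (hY.prj a t ≫ hX.inc a s) ≫ hX.prj b s' =
      (hY.inc b t' ≫ hY.prj a t) ≫ (hX.inc a s ≫ hX.prj b s') := by simp
  rw [e1, e2]
  by_cases hab : a = b
  · subst hab
    rw [hX.inc_prj, hX.inc_prj, hY.inc_prj, hY.inc_prj]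
    by_cases h1 : s = s' <;> by_cases h2 : t = t'
    · simp [h1, h2, B.coef_id]
    · simp [h1, h2, Ne.symm h2]
    · simp [h1, h2, Ne.symm h1]
    · simp [h1, h2, Ne.symm h1]
  · rw [hY.inc_prj_label B hab, hX.inc_prj_label B hab]
    simp

end mat

end

end Pool.Agent.TH22.UF
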