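import Pool.Agent.TH22.UF.HStr

/-!
# The C*-norm
-/

set_option autoImplicit false
set_option linter.unusedSectionVars false

open CategoryTheory CategoryTheory.Limits MonoidalCategory

namespace Pool.Agent.TH22.UF

section psd

open scoped ComplexOrder MatrixOrder

lemma exists_factor' {n m : Type*} [Fintype n] [Fintype m] (M : Matrix n m ℂ) :
    ∃ A : Matrix n n ℂ, M * M.conjTranspose = A.conjTranspose * A := by
  classical
  have hA : (M * M.conjTranspose).PosSemidef := Matrix.posSemidef_self_mul_conjTranspose M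
  obtain ⟨A, hA'⟩ := CStarAlgebra.nonneg_iff_eq_star_mul_self.mp hA.nonneg
  exact ⟨A, hA'⟩

end psd

universe v u

open scoped Classical

section

variable {C : Type u} [Category.{v} C] [Preadditive C] [Linear ℂ C]

variable {r : ℕ} {S : Fin r → C} (B : Base S)

variable {X Y Z W : C} (hX : HStr S X) (hY : HStr S Y) (hZ : HStr S Z) (hW : HStr S W)

open scoped Matrix.Norms.L2Operator

/-- The block diagonal matrix of a morphism. -/
noncomputable def bmat : (X ⟶ Y) →ₗ[ℂ] Matrix (Σ a, hX.J a) (Σ a, hY.J a) ℂ where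
  toFun f := Matrix.blockDiagonal' (mat B hX hY f)
  map_add' f g := by
    have : mat B hX hY (f + g) = mat B hX hY f + mat B hX hY g := by
      funext a; exact mat_add B hX hY f g a
    rw [this, Matrix.blockDiagonal'_add]
  map_smul' z f := by
    have : mat B hX hY (z • f) = z • mat B hX hY f := by
      funext a; exact mat_smul B hX hY z f a
    rw [this, Matrix.blockDiagonal'_smul]
    rfl

lemma bmat_injective {f g : X ⟶ Y} (h : bmat B hX hY f = bmat B hX hY g) : f = g :=
  mat_injective B hX hY (Matrix.blockDiagonal'_injective h)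

lemma bmat_comp (f : X ⟶ Y) (g : Y ⟶ Z) :
    bmat B hX hZ (f ≫ g) = bmat B hX hY f * bmat B hY hZ g := by
  have : mat B hX hZ (f ≫ g) = fun a => mat B hX hY f a * mat B hY hZ g a := by
    funext a; exact mat_comp B hX hY hZ f g a
  change Matrix.blockDiagonal' (mat B hX hZ (f ≫ g)) =
    Matrix.blockDiagonal' (mat B hX hY f) * Matrix.blockDiagonal' (mat B hY hZ g)
  rw [this, Matrix.blockDiagonal'_mul]

lemma bmat_adj (f : X ⟶ Y) :
    bmat B hY hX (adj B hX hY f) = (bmat B hX hY f).conjTranspose := by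
  have : mat B hY hX (adj B hX hY f) = fun a => (mat B hX hY f a).conjTranspose := by
    funext a; exact mat_adj B hX hY f a
  change Matrix.blockDiagonal' (mat B hY hX (adj B hX hY f)) =
    (Matrix.blockDiagonal' (mat B hX hY f)).conjTranspose
  rw [this, Matrix.blockDiagonal'_conjTranspose]

/-- The operator norm of a morphism. -/
noncomputable def opNorm (f : X ⟶ Y) : ℝ := ‖bmat B hX hY f‖

lemma opNorm_add_le (f g : X ⟶ Y) :
    opNorm B hX hY (f + g) ≤ opNorm B hX hY f + opNorm B hX hY g := by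
  unfold opNorm
  rw [map_add]
  exact norm_add_le _ _

lemma opNorm_smul (z : ℂ) (f : X ⟶ Y) :
    opNorm B hX hY (z • f) = ‖z‖ * opNorm B hX hY f := by
  unfold opNorm
  rw [map_smul]
  exact norm_smul _ _

lemma eq_zero_of_opNorm (f : X ⟶ Y) (h : opNorm B hX hY f = 0) : f = 0 := by
  unfold opNorm at h
  apply bmat_injective B hX hY
  rw [map_zero]
  exact norm_eq_zero.mp h

lemma opNorm_comp_le (f : X ⟶ Y) (g : Y ⟶ Z) :
    opNorm B hX hZ (f ≫ g) ≤ opNorm B hX hY f * opNorm B hY hZ g := by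
  unfold opNorm
  rw [bmat_comp B hX hY hZ]
  exact Matrix.l2_opNorm_mul _ _

lemma opNorm_comp_adj (f : X ⟶ Y) :
    opNorm B hX hX (f ≫ adj B hX hY f) = opNorm B hX hY f ^ 2 := by
  unfold opNorm
  rw [bmat_comp B hX hY hX, bmat_adj]
  have h := Matrix.l2_opNorm_conjTranspose_mul_self (bmat B hX hY f).conjTranspose
  rw [Matrix.conjTranspose_conjTranspose, Matrix.l2_opNorm_conjTranspose] at h
  rw [h, sq]

lemma opNorm_complete (f : ℕ → (X ⟶ Y))
    (hf : ∀ ε : ℝ, 0 < ε → ∃ n₀ : ℕ, ∀ m ≥ n₀, ∀ n ≥ n₀, opNorm B hX hY (f m - f n) < ε) :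
    ∃ l : X ⟶ Y, ∀ ε : ℝ, 0 < ε → ∃ n₀ : ℕ, ∀ n ≥ n₀, opNorm B hX hY (f n - l) < ε := by
  have hc : CauchySeq fun n => bmat B hX hY (f n) := by
    rw [Metric.cauchySeq_iff]
    intro ε hε
    obtain ⟨n₀, h⟩ := hf ε hε
    refine ⟨n₀, fun m hm n hn => ?_⟩
    rw [dist_eq_norm, ← map_sub]
    exact h m hm n hn
  have hcl : IsClosed ((LinearMap.range (bmat B hX hY) : Submodule ℂ _) : Set
      (Matrix (Σ a, hX.J a) (Σ a, hY.J a) ℂ)) := Submodule.closed_of_finiteDimensional _
  obtain ⟨l, hl⟩ := cauchySeq_tendsto_of_complete hc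
  have hmem : l ∈ (LinearMap.range (bmat B hX hY) : Submodule ℂ _) :=
    hcl.mem_of_tendsto hl (Filter.Eventually.of_forall fun n => ⟨f n, rfl⟩)
  obtain ⟨l', rfl⟩ := hmem
  refine ⟨l', fun ε hε => ?_⟩
  obtain ⟨n₀, h⟩ := Metric.tendsto_atTop.mp hl ε hε
  refine ⟨n₀, fun n hn => ?_⟩
  have := h n hn
  rw [dist_eq_norm, ← map_sub] at this
  exact this

lemma exists_sq (f : X ⟶ Y) : ∃ g : X ⟶ X, f ≫ adj B hX hY f = g ≫ adj B hX hX g := by
  have h : ∀ a, ∃ b : Matrix (hX.J a) (hX.J a) ℂ,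
      mat B hX hY f a * (mat B hX hY f a).conjTranspose = b.conjTranspose * b :=
    fun a => exists_factor' (mat B hX hY f a)
  choose b hb using h
  refine ⟨ofMat hX hX fun a => (b a).conjTranspose, ?_⟩
  apply mat_injective B hX hX
  funext a
  rw [mat_comp B hX hY hX, mat_comp B hX hX hX, mat_adj, mat_adj, mat_ofMat, hb,
    Matrix.conjTranspose_conjTranspose]

lemma comp_adj_eq_zero (f : X ⟶ Y) (h : f ≫ adj B hX hY f = 0) : f = 0 := by
  apply eq_zero_of_opNorm B hX hY
  have h1 := opNorm_comp_adj B hX hY f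
  rw [h] at h1
  have h2 : opNorm B hX hX (0 : X ⟶ X) = 0 := by
    unfold opNorm; rw [map_zero]; exact norm_zero
  rw [h2] at h1
  exact pow_eq_zero_iff (two_ne_zero) |>.mp h1.symm

end

end Pool.Agent.TH22.UF
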