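import Pool.Agent.TH22.UF.Half
import Pool.Agent.TH22.UF.Build

/-!
# A unitary fusion category has a gauge with unitary F-matrices
-/

set_option autoImplicit false
set_option linter.unusedSectionVars false
set_option linter.unusedVariables false

open CategoryTheory CategoryTheory.Limits MonoidalCategory

namespace Pool.Agent.TH22.UF

universe v u v' u'

section onb

variable {D : Type u} [Category.{v} D] [Preadditive D] [Linear ℂ D] [MonoidalCategory D]
  [MonoidalPreadditive D] [MonoidalLinear ℂ D] (s : CStarTensorStructure D)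

/-- An orthonormal family of morphisms `T ⟶ X`. -/
def ON {T X : D} {ι : Type*} [DecidableEq ι] (e : ι → (T ⟶ X)) : Prop :=
  ∀ i j, e i ≫ s.star (e j) = if i = j then 𝟙 T else 0

/-- A complete family of morphisms `T ⟶ X`. -/
def Cpl {T X : D} {ι : Type*} [Fintype ι] (e : ι → (T ⟶ X)) : Prop :=
  ∀ v : T ⟶ X, v = ∑ i, (v ≫ s.star (e i)) ≫ e i

variable {s}

open CStarTensorStructure in
lemma exists_unitary_matrix {T X : D} (hT : Scal T) {ι κ : Type*} [Fintype ι] [Fintype κ]
    [DecidableEq ι] [DecidableEq κ] (e : ι → (T ⟶ X)) (f : κ → (T ⟶ X)) (he : ON s e)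
    (hec : Cpl s e) (hf : ON s f) (hfc : Cpl s f) :
    ∃ M : Matrix κ ι ℂ, (∀ i, e i = ∑ k, M k i • f k) ∧ M.conjTranspose * M = 1 ∧
      M * M.conjTranspose = 1 := by
  have h1 : ∀ k i, ∃ z : ℂ, e i ≫ s.star (f k) = z • 𝟙 T := fun k i => hT.scalar _
  choose M hM using h1
  have hM' : ∀ k i, f k ≫ s.star (e i) = (starRingEnd ℂ (M k i)) • 𝟙 T := by
    intro k i
    have := congrArg s.star (hM k i)
    rwa [s.star_comp, s.star_star, s.star_smul, s.star_id] at this
  refine ⟨Matrix.of M, ?_, ?_, ?_⟩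
  · intro i
    conv_lhs => rw [hfc (e i)]
    refine Finset.sum_congr rfl fun k _ => ?_
    rw [hM, Linear.smul_comp, Category.id_comp]
    rfl
  · ext i j
    rw [Matrix.mul_apply]
    simp only [Matrix.conjTranspose_apply, Matrix.of_apply]
    apply hT.inj
    rw [Finset.sum_smul]
    have h2 : ∀ k, (star (M k i) * M k j) • 𝟙 T = ((e j ≫ s.star (f k)) ≫ f k) ≫ s.star (e i) := by
      intro k
      rw [Category.assoc, hM, hM', Linear.smul_comp, Category.id_comp, smul_smul, mul_comm]
      rfl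
    simp_rw [h2]
    rw [← Preadditive.sum_comp, ← hfc, he, Matrix.one_apply]
    by_cases hij : i = j
    · subst hij; simp
    · rw [if_neg hij, if_neg (Ne.symm hij), zero_smul]
  · ext k l
    rw [Matrix.mul_apply]
    simp only [Matrix.conjTranspose_apply, Matrix.of_apply]
    apply hT.inj
    rw [Finset.sum_smul]
    have h2 : ∀ i, (M k i * star (M l i)) • 𝟙 T = ((f l ≫ s.star (e i)) ≫ e i) ≫ s.star (f k) := by
      intro i
      rw [Category.assoc, hM, hM', Linear.smul_comp, Category.id_comp, smul_smul, mul_comm]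
      rfl
    simp_rw [h2]
    rw [← Preadditive.sum_comp, ← hec, hf, Matrix.one_apply]
    by_cases hij : k = l
    · subst hij; simp
    · rw [if_neg hij, if_neg (Ne.symm hij), zero_smul]

open CStarTensorStructure in
/-- Orthonormal bases exist. -/
lemma exists_onb {T X : D} (hT : Scal T) [FiniteDimensional ℂ (T ⟶ X)] :
    ∃ (n : ℕ) (b : Module.Basis (Fin n) ℂ (T ⟶ X)), ON s b ∧ Cpl s b := by
  have h1 : ∀ v w : T ⟶ X, ∃ z : ℂ, w ≫ s.star v = z • 𝟙 T := fun v w => hT.scalar _
  choose ip hip using h1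
  have hpos : ∀ v, ∃ t : ℝ, 0 ≤ t ∧ ip v v = (t : ℂ) := by
    intro v
    obtain ⟨t, ht, h⟩ := exists_NS (s := s) hT v
    refine ⟨t, ht, ?_⟩
    apply hT.inj
    rw [← hip]
    exact h
  let core : InnerProductSpace.Core ℂ (T ⟶ X) :=
    { inner := ip
      conj_inner_symm := fun x y => by
        apply hT.inj
        have := congrArg s.star (hip y x)
        rw [s.star_comp, s.star_star, s.star_smul, s.star_id, hip] at this
        exact this.symm
      re_inner_nonneg := fun x => by
        obtain ⟨t, ht, h⟩ := hpos x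
        rw [h]
        simpa using ht
      add_left := fun x y z => by
        apply hT.inj
        rw [add_smul, ← hip, ← hip, ← hip, s.star_add, Preadditive.comp_add]
      smul_left := fun x y r => by
        apply hT.inj
        rw [mul_smul, ← hip, ← hip, s.star_smul, Linear.comp_smul]
      definite := fun x hx => by
        apply s.eq_zero_of_comp_star
        rw [hip, hx, zero_smul] }
  let _ : NormedAddCommGroup (T ⟶ X) := @InnerProductSpace.Core.toNormedAddCommGroup ℂ (T ⟶ X) _ _ _ core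
  let _ : InnerProductSpace ℂ (T ⟶ X) := InnerProductSpace.ofCore core.toCore
  have hfd : FiniteDimensional ℂ (T ⟶ X) := inferInstance
  let b := stdOrthonormalBasis ℂ (T ⟶ X)
  refine ⟨_, b.toBasis, ?_, ?_⟩
  · intro i j
    rw [hip]
    have h2 : ip (b j) (b i) = if j = i then 1 else 0 := orthonormal_iff_ite.mp b.orthonormal j i
    simp only [OrthonormalBasis.coe_toBasis]
    rw [h2]
    by_cases hij : i = j
    · subst hij; simp
    · rw [if_neg (Ne.symm hij), if_neg hij, zero_smul]
  · intro v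
    have h2 : ∑ i, ip (b i) v • b i = v := b.sum_repr' v
    conv_lhs => rw [← h2]
    refine Finset.sum_congr rfl fun i _ => ?_
    simp only [OrthonormalBasis.coe_toBasis]
    rw [hip, Linear.smul_comp, Category.id_comp]

end onb

section prod

variable {D : Type u} [Category.{v} D] [Preadditive D] [Linear ℂ D] [MonoidalCategory D]
  [MonoidalPreadditive D] [MonoidalLinear ℂ D] {s : CStarTensorStructure D}

variable {r : ℕ} {T : Fin r → D}

/-- A choice of orthonormal bases. -/
structure ONB (s : CStarTensorStructure D) (T : Fin r → D) where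
  N : Fin r → Fin r → Fin r → ℕ
  b : ∀ a b c : Fin r, Module.Basis (Fin (N a b c)) ℂ (T c ⟶ T a ⊗ T b)
  on : ∀ a b' c, ON s (b a b' c)
  cpl : ∀ a b' c, Cpl s (b a b' c)
  orth : ∀ (a b : Fin r), a ≠ b → ∀ f : T a ⟶ T b, f = 0
  total : ∀ a b' : Fin r, ∑ c, ∑ k, s.star (b a b' c k) ≫ b a b' c k = 𝟙 (T a ⊗ T b')

/-- The source vectors. -/
noncomputable def ONB.src (B : ONB s T) (a b c d : Fin r) (p : Σ e : Fin r, Fin (B.N a b e) × Fin (B.N e c d)) :
    T d ⟶ (T a ⊗ T b) ⊗ T c :=
  B.b p.1 c d p.2.2 ≫ (B.b a b p.1 p.2.1 ▷ T c)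

/-- The target vectors. -/
noncomputable def ONB.tgt (B : ONB s T) (a b c d : Fin r) (q : Σ f : Fin r, Fin (B.N b c f) × Fin (B.N a f d)) :
    T d ⟶ T a ⊗ (T b ⊗ T c) :=
  B.b a q.1 d q.2.2 ≫ (T a ◁ B.b b c q.1 q.2.1)

lemma ONB.on_src (B : ONB s T) (a b c d : Fin r) : ON s (B.src a b c d) := by
  rintro ⟨e, k, l⟩ ⟨e', k', l'⟩
  unfold ONB.src
  simp only
  rw [s.star_comp, s.star_whiskerRight, Category.assoc, ← Category.assoc (B.b a b e k ▷ T c),
    ← comp_whiskerRight]
  by_cases he : e = e'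
  · subst he
    rw [B.on]
    by_cases hk : k = k'
    · subst hk
      rw [if_pos rfl, id_whiskerRight, Category.id_comp, B.on]
      by_cases hl : l = l'
      · subst hl; simp
      · rw [if_neg hl, if_neg]
        intro h
        simp at h
        exact hl h
    · rw [if_neg hk, MonoidalPreadditive.zero_whiskerRight, zero_comp, comp_zero, if_neg]
      intro h
      simp at h
      exact hk h.1
  · rw [B.orth e e' he (B.b a b e k ≫ s.star (B.b a b e' k')), MonoidalPreadditive.zero_whiskerRight, zero_comp,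
      comp_zero, if_neg]
    intro h
    exact he (congrArg Sigma.fst h)

lemma ONB.on_tgt (B : ONB s T) (a b c d : Fin r) : ON s (B.tgt a b c d) := by
  rintro ⟨e, k, l⟩ ⟨e', k', l'⟩
  unfold ONB.tgt
  simp only
  rw [s.star_comp, s.star_whiskerLeft, Category.assoc, ← Category.assoc (T a ◁ B.b b c e k),
    ← MonoidalCategory.whiskerLeft_comp]
  by_cases he : e = e'
  · subst he
    rw [B.on]
    by_cases hk : k = k'
    · subst hk
      rw [if_pos rfl, MonoidalCategory.whiskerLeft_id, Category.id_comp, B.on]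
      by_cases hl : l = l'
      · subst hl; simp
      · rw [if_neg hl, if_neg]
        intro h
        simp at h
        exact hl h
    · rw [if_neg hk, MonoidalPreadditive.whiskerLeft_zero, zero_comp, comp_zero, if_neg]
      intro h
      simp at h
      exact hk h.1
  · rw [B.orth e e' he (B.b b c e k ≫ s.star (B.b b c e' k')), MonoidalPreadditive.whiskerLeft_zero,
      zero_comp, comp_zero, if_neg]
    intro h
    exact he (congrArg Sigma.fst h)

lemma ONB.cpl_src (B : ONB s T) (a b c d : Fin r) : Cpl s (B.src a b c d) := by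
  intro v
  have h1 : v = ∑ e, ∑ k, (v ≫ (s.star (B.b a b e k) ▷ T c)) ≫ (B.b a b e k ▷ T c) := by
    have : (∑ e, ∑ k, s.star (B.b a b e k) ≫ B.b a b e k) ▷ T c = 𝟙 _ := by
      rw [B.total, id_whiskerRight]
    rw [sum_whiskerRight] at this
    simp_rw [sum_whiskerRight, comp_whiskerRight] at this
    conv_lhs => rw [← Category.comp_id v, ← this]
    simp_rw [Preadditive.comp_sum, Category.assoc]
  conv_lhs => rw [h1]
  rw [Fintype.sum_sigma]
  refine Finset.sum_congr rfl fun e _ => ?_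
  rw [Fintype.sum_prod_type]
  refine Finset.sum_congr rfl fun k _ => ?_
  conv_lhs => rw [B.cpl e c d (v ≫ (s.star (B.b a b e k) ▷ T c))]
  rw [Preadditive.sum_comp]
  refine Finset.sum_congr rfl fun l _ => ?_
  unfold ONB.src
  simp only [s.star_comp, s.star_whiskerRight, Category.assoc]

lemma ONB.cpl_tgt (B : ONB s T) (a b c d : Fin r) : Cpl s (B.tgt a b c d) := by
  intro v
  have h1 : v = ∑ e, ∑ k, (v ≫ (T a ◁ s.star (B.b b c e k))) ≫ (T a ◁ B.b b c e k) := by
    have : T a ◁ (∑ e, ∑ k, s.star (B.b b c e k) ≫ B.b b c e k) = 𝟙 _ := by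
      rw [B.total, MonoidalCategory.whiskerLeft_id]
    rw [whiskerLeft_sum] at this
    simp_rw [whiskerLeft_sum, MonoidalCategory.whiskerLeft_comp] at this
    conv_lhs => rw [← Category.comp_id v, ← this]
    simp_rw [Preadditive.comp_sum, Category.assoc]
  conv_lhs => rw [h1]
  rw [Fintype.sum_sigma]
  refine Finset.sum_congr rfl fun e _ => ?_
  rw [Fintype.sum_prod_type]
  refine Finset.sum_congr rfl fun k _ => ?_
  conv_lhs => rw [B.cpl a e d (v ≫ (T a ◁ s.star (B.b b c e k)))]
  rw [Preadditive.sum_comp]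
  refine Finset.sum_congr rfl fun l _ => ?_
  unfold ONB.tgt
  simp only [s.star_comp, s.star_whiskerLeft, Category.assoc]

open CStarTensorStructure in
lemma ONB.exists_matrix (B : ONB s T) (hT : ∀ a, Scal (T a)) (a b c d : Fin r) :
    ∃ M : Matrix (Σ f : Fin r, Fin (B.N b c f) × Fin (B.N a f d))
      (Σ e : Fin r, Fin (B.N a b e) × Fin (B.N e c d)) ℂ,
      (∀ p, B.src a b c d p ≫ (α_ (T a) (T b) (T c)).hom = ∑ q, M q p • B.tgt a b c d q) ∧
      M.conjTranspose * M = 1 ∧ M * M.conjTranspose = 1 := by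
  refine exists_unitary_matrix (s := s) (hT d)
    (fun p => B.src a b c d p ≫ (α_ (T a) (T b) (T c)).hom) (B.tgt a b c d) ?_ ?_
    (B.on_tgt a b c d) (B.cpl_tgt a b c d)
  · intro p p'
    rw [s.star_comp, s.star_associator]
    simp only [Category.assoc, Iso.hom_inv_id_assoc]
    exact B.on_src a b c d p p'
  · intro v
    have h := B.cpl_src a b c d (v ≫ (α_ (T a) (T b) (T c)).inv)
    rw [← cancel_mono (α_ (T a) (T b) (T c)).inv, h, Preadditive.sum_comp]
    refine Finset.sum_congr rfl fun p _ => ?_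
    rw [s.star_comp, s.star_associator]
    simp only [Category.assoc, Iso.hom_inv_id, Category.comp_id]

end prod

section transport

variable {C : Type u} [Category.{v} C] [Abelian C] [Linear ℂ C] [HasFiniteBiproducts C]
  [MonoidalCategory C] [MonoidalPreadditive C] [MonoidalLinear ℂ C] [RigidCategory C]

variable {r : ℕ} {S : Fin r → C}

variable {D : Type u'} [Category.{v} D] [Preadditive D] [Linear ℂ D] [MonoidalCategory D]
  [MonoidalPreadditive D] [MonoidalLinear ℂ D] {s : CStarTensorStructure D}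
  (F : D ⥤ C) [F.Monoidal] [F.Additive] [F.Linear ℂ] [F.IsEquivalence]

/-- Transport of Hom spaces. -/
noncomputable def homEqv {X Y : D} {X' Y' : C} (e : F.obj X ≅ X') (f : F.obj Y ≅ Y') :
    (X ⟶ Y) ≃ₗ[ℂ] (X' ⟶ Y') where
  toFun g := e.inv ≫ F.map g ≫ f.hom
  map_add' g h := by simp
  map_smul' z g := by simp
  invFun g := F.preimage (e.hom ≫ g ≫ f.inv)
  left_inv g := by
    apply F.map_injective
    simp
  right_inv g := by simp

/-- The isomorphism `F (X ⊗ Y) ≅ X' ⊗ Y'`. -/
noncomputable def tenI {X Y : D} {X' Y' : C} (e : F.obj X ≅ X') (f : F.obj Y ≅ Y') :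
    F.obj (X ⊗ Y) ≅ X' ⊗ Y' :=
  (Functor.Monoidal.μIso F X Y).symm ≪≫ (e ⊗ᵢ f)

lemma tenI_assoc {X Y Z : D} {X' Y' Z' : C} (e : F.obj X ≅ X') (f : F.obj Y ≅ Y')
    (g : F.obj Z ≅ Z') :
    (tenI F (tenI F e f) g).hom ≫ (α_ X' Y' Z').hom =
      F.map (α_ X Y Z).hom ≫ (tenI F e (tenI F f g)).hom := by
  have h := Functor.OplaxMonoidal.associativity F X Y Z
  unfold tenI
  simp only [Iso.trans_hom, Iso.symm_hom, Functor.Monoidal.μIso_inv, tensorIso_hom]
  have h1 : (Functor.OplaxMonoidal.δ F X Y ≫ (e.hom ⊗ₘ f.hom)) ⊗ₘ g.hom =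
      (Functor.OplaxMonoidal.δ F X Y ▷ F.obj Z) ≫ ((e.hom ⊗ₘ f.hom) ⊗ₘ g.hom) := by
    rw [← tensorHom_id, tensorHom_comp_tensorHom, Category.id_comp]
  have h2 : e.hom ⊗ₘ (Functor.OplaxMonoidal.δ F Y Z ≫ (f.hom ⊗ₘ g.hom)) =
      (F.obj X ◁ Functor.OplaxMonoidal.δ F Y Z) ≫ (e.hom ⊗ₘ (f.hom ⊗ₘ g.hom)) := by
    rw [← id_tensorHom, tensorHom_comp_tensorHom, Category.id_comp]
  rw [h1, h2]
  simp only [Category.assoc]
  rw [associator_naturality, reassoc_of% h]

lemma tenI_left {X Y Z : D} {X' Y' Z' : C} (e : F.obj X ≅ X') (f : F.obj Y ≅ Y')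
    (g : F.obj Z ≅ Z') (x : X ⟶ Y) :
    (tenI F e g).hom ≫ ((e.inv ≫ F.map x ≫ f.hom) ▷ Z') = F.map (x ▷ Z) ≫ (tenI F f g).hom := by
  unfold tenI
  simp only [Iso.trans_hom, Iso.symm_hom, Functor.Monoidal.μIso_inv, tensorIso_hom,
    Category.assoc]
  rw [← Functor.OplaxMonoidal.δ_natural_left_assoc]
  congr 1
  rw [← tensorHom_id, ← tensorHom_id, tensorHom_comp_tensorHom, tensorHom_comp_tensorHom]
  simp

lemma tenI_right {X Y Z : D} {X' Y' Z' : C} (e : F.obj X ≅ X') (f : F.obj Y ≅ Y')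
    (g : F.obj Z ≅ Z') (x : X ⟶ Y) :
    (tenI F g e).hom ≫ (Z' ◁ (e.inv ≫ F.map x ≫ f.hom)) = F.map (Z ◁ x) ≫ (tenI F g f).hom := by
  unfold tenI
  simp only [Iso.trans_hom, Iso.symm_hom, Functor.Monoidal.μIso_inv, tensorIso_hom,
    Category.assoc]
  rw [← Functor.OplaxMonoidal.δ_natural_right_assoc]
  congr 1
  rw [← id_tensorHom, ← id_tensorHom, tensorHom_comp_tensorHom, tensorHom_comp_tensorHom]
  simp

include F in
open CStarTensorStructure in
theorem exists_gauge_aux (s : CStarTensorStructure D) (hC : IsFusionCategory C)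
    (hS : IsSimpleList S) : ∃ g : Gauge S, g.UnitaryF := by
  classical
  obtain ⟨B₀⟩ := exists_base (S := S) hC.finiteDimensional_hom hS
  let T : Fin r → D := fun a => F.objPreimage (S a)
  let φ : ∀ a, F.obj (T a) ≅ S a := fun a => F.objObjPreimageIso (S a)
  have hscal : ∀ a, Scal (T a) := by
    intro a
    refine ⟨fun f => ⟨B₀.coef a (homEqv F (φ a) (φ a) f), ?_⟩, ?_⟩
    · apply (homEqv F (φ a) (φ a)).injective
      rw [map_smul]
      conv_lhs => rw [B₀.coef_smul a (homEqv F (φ a) (φ a) f)]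
      congr 1
      simp [homEqv]
    · intro h
      have h1 : homEqv F (φ a) (φ a) (𝟙 (T a)) = 0 := by rw [h, map_zero]
      have h2 : homEqv F (φ a) (φ a) (𝟙 (T a)) = 𝟙 (S a) := by simp [homEqv]
      have h3 := B₀.coef_id a
      rw [← h2, h1, map_zero] at h3
      exact zero_ne_one h3
  have hfd : ∀ X Y : D, FiniteDimensional ℂ (X ⟶ Y) := by
    intro X Y
    have := hC.finiteDimensional_hom (F.obj X) (F.obj Y)
    exact LinearEquiv.finiteDimensional (homEqv F (Iso.refl (F.obj X)) (Iso.refl (F.obj Y))).symm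
  have hon := fun a b c => @exists_onb D _ _ _ _ _ _ s (T c) (T a ⊗ T b) (hscal c) (hfd _ _)
  choose N b hb hb' using hon
  have horth : ∀ (a b : Fin r), a ≠ b → ∀ f : T a ⟶ T b, f = 0 := by
    intro a b hab f
    apply (homEqv F (φ a) (φ b)).injective
    rw [map_zero]
    exact B₀.hom_zero hab _
  have htot : ∀ (X : D) (n : Fin r → ℕ) (e : ∀ c, Fin (n c) → (T c ⟶ X)),
      (∀ c, Cpl s (e c)) → (∀ c, ON s (e c)) → ∑ c, ∑ k, s.star (e c k) ≫ e c k = 𝟙 X := by
    intro X n e he he'
    obtain ⟨hX⟩ := exists_hstr hS B₀ hC.semisimple (F.obj X)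
    have h1 : ∀ c (v : T c ⟶ X), v ≫ (∑ c, ∑ k, s.star (e c k) ≫ e c k) = v := by
      intro c v
      rw [Preadditive.comp_sum, Finset.sum_eq_single c]
      · rw [Preadditive.comp_sum]
        conv_rhs => rw [he c v]
        refine Finset.sum_congr rfl fun k _ => ?_
        rw [Category.assoc]
      · intro c' _ hc'
        rw [Preadditive.comp_sum]
        refine Finset.sum_eq_zero fun k _ => ?_
        rw [← Category.assoc, horth c c' (Ne.symm hc') (v ≫ s.star (e c' k)), zero_comp]
      · intro h; exact absurd (Finset.mem_univ _) h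
    apply F.map_injective
    rw [F.map_id]
    set P := ∑ c, ∑ k, s.star (e c k) ≫ e c k with hP
    have h2 : ∀ c (x : S c ⟶ F.obj X), x ≫ F.map P = x := by
      intro c x
      obtain ⟨y, hy⟩ := F.map_surjective ((φ c).hom ≫ x)
      have h3 := congrArg F.map (h1 c y)
      rw [F.map_comp, hy, Category.assoc] at h3
      exact (cancel_epi _).mp h3
    calc F.map P = 𝟙 _ ≫ F.map P := (Category.id_comp _).symm
      _ = (∑ a, ∑ s, hX.prj a s ≫ hX.inc a s) ≫ F.map P := by rw [hX.total]
      _ = ∑ a, ∑ s, hX.prj a s ≫ hX.inc a s := by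
        rw [Preadditive.sum_comp]
        refine Finset.sum_congr rfl fun a _ => ?_
        rw [Preadditive.sum_comp]
        refine Finset.sum_congr rfl fun k _ => ?_
        rw [Category.assoc, h2]
      _ = 𝟙 _ := hX.total
  let B : ONB s T := ⟨N, b, hb, hb', horth, fun a b' => htot _ _ _ (fun c => hb' a b' c)
    (fun c => hb a b' c)⟩
  refine ⟨⟨N, fun a b' c => (b a b' c).map (homEqv F (φ c) (tenI F (φ a) (φ b')))⟩, ?_⟩
  intro a b' c d
  obtain ⟨M, hM, hM1, hM2⟩ := B.exists_matrix hscal a b' c d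
  refine ⟨M, ?_, hM1, hM2⟩
  intro p
  have hsrc : ∀ p, Gauge.srcVec ⟨N, fun a b' c => (b a b' c).map
      (homEqv F (φ c) (tenI F (φ a) (φ b')))⟩ a b' c d p =
      (φ d).inv ≫ F.map (B.src a b' c d p) ≫ (tenI F (tenI F (φ a) (φ b')) (φ c)).hom := by
    rintro ⟨e, k, l⟩
    unfold Gauge.srcVec ONB.src
    simp only [Module.Basis.map_apply, homEqv, LinearEquiv.coe_mk, LinearMap.coe_mk, AddHom.coe_mk]
    rw [F.map_comp, Category.assoc, Category.assoc, Category.assoc, ← tenI_left F (φ e)]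
  have htgt : ∀ q, Gauge.tgtVec ⟨N, fun a b' c => (b a b' c).map
      (homEqv F (φ c) (tenI F (φ a) (φ b')))⟩ a b' c d q =
      (φ d).inv ≫ F.map (B.tgt a b' c d q) ≫ (tenI F (φ a) (tenI F (φ b') (φ c))).hom := by
    rintro ⟨e, k, l⟩
    unfold Gauge.tgtVec ONB.tgt
    simp only [Module.Basis.map_apply, homEqv, LinearEquiv.coe_mk, LinearMap.coe_mk, AddHom.coe_mk]
    rw [F.map_comp, Category.assoc, Category.assoc, Category.assoc, ← tenI_right F (φ e)]
  rw [hsrc, Category.assoc, Category.assoc, tenI_assoc, ← F.map_comp_assoc, hM, F.map_sum,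
    Preadditive.sum_comp, Preadditive.comp_sum]
  refine Finset.sum_congr rfl fun q _ => ?_
  rw [htgt, F.map_smul, Linear.smul_comp, Linear.comp_smul]

end transport

section final

variable {C : Type u} [Category.{v} C] [Abelian C] [Linear ℂ C] [HasFiniteBiproducts C]
  [MonoidalCategory C] [MonoidalPreadditive C] [MonoidalLinear ℂ C] [RigidCategory C]

variable {r : ℕ} {S : Fin r → C}

theorem exists_gauge_of_isUnitary (hC : IsFusionCategory C) (hS : IsSimpleList S)
    (hU : IsUnitary C) : ∃ g : Gauge S, g.UnitaryF := by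
  obtain ⟨D, _, _, _, _, s, F, _, _, hFL, hFE⟩ := hU
  have := monoidalPreadditive_of_faithful F
  have := MonoidalLinear.ofFaithful (R := ℂ) F
  exact exists_gauge_aux F s hC hS

end final

end Pool.Agent.TH22.UF
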