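import Pool.Agent.TH22.UF.Norm

/-!
# Tensor products of orthonormal decompositions
-/

set_option autoImplicit false
set_option linter.unusedSectionVars false

open CategoryTheory CategoryTheory.Limits MonoidalCategory

namespace Pool.Agent.TH22.UF

universe v u

section

variable {C : Type u} [Category.{v} C] [Preadditive C] [Linear ℂ C] [MonoidalCategory C]
  [MonoidalPreadditive C] [MonoidalLinear ℂ C]

variable {r : ℕ} {S : Fin r → C} (B : Base S) (V : ∀ a b, HStr S (S a ⊗ S b))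

lemma smul_tensorHom {X Y Z W : C} (z : ℂ) (f : X ⟶ Y) (g : Z ⟶ W) :
    (z • f) ⊗ₘ g = z • (f ⊗ₘ g) := by
  simp [MonoidalCategory.tensorHom_def]

lemma tensorHom_smul {X Y Z W : C} (z : ℂ) (f : X ⟶ Y) (g : Z ⟶ W) :
    f ⊗ₘ (z • g) = z • (f ⊗ₘ g) := by
  simp [MonoidalCategory.tensorHom_def]

/-- The tensor product of two decomposed objects. -/
noncomputable def tensorStr {X Y : C} (hX : HStr S X) (hY : HStr S Y) : HStr S (X ⊗ Y) where
  J c := Σ p : Fin r × Fin r, hX.J p.1 × hY.J p.2 × (V p.1 p.2).J c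
  fin c := inferInstance
  inc c x := (V x.1.1 x.1.2).inc c x.2.2.2 ≫ (hX.inc x.1.1 x.2.1 ⊗ₘ hY.inc x.1.2 x.2.2.1)
  prj c x := (hX.prj x.1.1 x.2.1 ⊗ₘ hY.prj x.1.2 x.2.2.1) ≫ (V x.1.1 x.1.2).prj c x.2.2.2
  inc_prj_self := by
    rintro c ⟨⟨a, b⟩, s, t, i⟩
    dsimp only
    rw [Category.assoc, tensorHom_comp_tensorHom_assoc, hX.inc_prj_self, hY.inc_prj_self]
    simp [(V a b).inc_prj_self]
  inc_prj_ne := by
    rintro c ⟨⟨a, b⟩, s, t, i⟩ ⟨⟨a', b'⟩, s', t', i'⟩ hne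
    dsimp only
    rw [Category.assoc, tensorHom_comp_tensorHom_assoc]
    by_cases ha : a = a'
    · by_cases hb : b = b'
      · subst ha hb
        by_cases hs : s = s'
        · by_cases ht : t = t'
          · subst hs ht
            have hi : i ≠ i' := by
              rintro rfl; exact hne rfl
            rw [hX.inc_prj_self, hY.inc_prj_self]
            simp [(V a b).inc_prj_ne c i i' hi]
          · rw [hY.inc_prj_ne b t t' ht]; simp
        · rw [hX.inc_prj_ne a s s' hs]; simp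
      · rw [hY.inc_prj_label B hb]; simp
    · rw [hX.inc_prj_label B ha]; simp
  total := by
    have h1 : ∀ (a b : Fin r) (s : hX.J a) (t : hY.J b),
        ∑ c, ∑ i : (V a b).J c, ((hX.prj a s ⊗ₘ hY.prj b t) ≫ (V a b).prj c i) ≫
          (V a b).inc c i ≫ (hX.inc a s ⊗ₘ hY.inc b t) =
        (hX.prj a s ≫ hX.inc a s) ⊗ₘ (hY.prj b t ≫ hY.inc b t) := by
      intro a b s t
      have h2 : ∀ c, ∀ i : (V a b).J c, ((hX.prj a s ⊗ₘ hY.prj b t) ≫ (V a b).prj c i) ≫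
          (V a b).inc c i ≫ (hX.inc a s ⊗ₘ hY.inc b t) =
          (hX.prj a s ⊗ₘ hY.prj b t) ≫ ((V a b).prj c i ≫
          (V a b).inc c i) ≫ (hX.inc a s ⊗ₘ hY.inc b t) := by intros; simp
      simp_rw [h2]
      simp_rw [← Preadditive.comp_sum, ← Preadditive.sum_comp, (V a b).total]
      simp
    simp_rw [Fintype.sum_sigma, Fintype.sum_prod_type]
    rw [Finset.sum_comm]
    have h3 : ∀ a : Fin r, (∑ c, ∑ b, ∑ s : hX.J a, ∑ t : hY.J b, ∑ i : (V a b).J c,
        ((hX.prj a s ⊗ₘ hY.prj b t) ≫ (V a b).prj c i) ≫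
          (V a b).inc c i ≫ (hX.inc a s ⊗ₘ hY.inc b t)) =
        ∑ s : hX.J a, (hX.prj a s ≫ hX.inc a s) ⊗ₘ 𝟙 Y := by
      intro a
      rw [Finset.sum_comm]
      have h4 : ∀ b : Fin r, (∑ c, ∑ s : hX.J a, ∑ t : hY.J b, ∑ i : (V a b).J c,
        ((hX.prj a s ⊗ₘ hY.prj b t) ≫ (V a b).prj c i) ≫
          (V a b).inc c i ≫ (hX.inc a s ⊗ₘ hY.inc b t)) =
          ∑ s : hX.J a, ∑ t : hY.J b, (hX.prj a s ≫ hX.inc a s) ⊗ₘ (hY.prj b t ≫ hY.inc b t) := by
        intro b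
        rw [Finset.sum_comm]
        refine Finset.sum_congr rfl fun s _ => ?_
        rw [Finset.sum_comm]
        exact Finset.sum_congr rfl fun t _ => h1 a b s t
      simp_rw [h4]
      rw [Finset.sum_comm]
      refine Finset.sum_congr rfl fun s _ => ?_
      simp_rw [← tensor_sum, hY.total]
    simp_rw [h3, ← sum_tensor, hX.total]
    simp

lemma tensor_prj_inc {X Y X' Y' : C} (hX : HStr S X) (hY : HStr S Y) (hX' : HStr S X')
    (hY' : HStr S Y') (a b : Fin r) (s : hX.J a) (s' : hX'.J a) (t : hY.J b) (t' : hY'.J b) :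
    (hX.prj a s ≫ hX'.inc a s') ⊗ₘ (hY.prj b t ≫ hY'.inc b t') =
      ∑ c, ∑ i : (V a b).J c, (tensorStr B V hX hY).prj c ⟨(a, b), s, t, i⟩ ≫
        (tensorStr B V hX' hY').inc c ⟨(a, b), s', t', i⟩ := by
  have h2 : ∀ c, ∀ i : (V a b).J c, (tensorStr B V hX hY).prj c ⟨(a, b), s, t, i⟩ ≫
        (tensorStr B V hX' hY').inc c ⟨(a, b), s', t', i⟩ =
      (hX.prj a s ⊗ₘ hY.prj b t) ≫ ((V a b).prj c i ≫
      (V a b).inc c i) ≫ (hX'.inc a s' ⊗ₘ hY'.inc b t') := by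
    intro c i
    change ((hX.prj a s ⊗ₘ hY.prj b t) ≫ (V a b).prj c i) ≫
      (V a b).inc c i ≫ (hX'.inc a s' ⊗ₘ hY'.inc b t') = _
    simp
  simp_rw [h2]
  simp_rw [← Preadditive.comp_sum, ← Preadditive.sum_comp, (V a b).total]
  simp

lemma adj_tensor_prj_inc {X Y X' Y' : C} (hX : HStr S X) (hY : HStr S Y) (hX' : HStr S X')
    (hY' : HStr S Y') (a b : Fin r) (s : hX.J a) (s' : hX'.J a) (t : hY.J b) (t' : hY'.J b) :
    adj B (tensorStr B V hX hY) (tensorStr B V hX' hY')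
      ((hX.prj a s ≫ hX'.inc a s') ⊗ₘ (hY.prj b t ≫ hY'.inc b t')) =
    (hX'.prj a s' ≫ hX.inc a s) ⊗ₘ (hY'.prj b t' ≫ hY.inc b t) := by
  rw [tensor_prj_inc B V, tensor_prj_inc B V, adj_sum]
  refine Finset.sum_congr rfl fun c _ => ?_
  rw [adj_sum]
  refine Finset.sum_congr rfl fun i _ => ?_
  exact adj_prj_inc B _ _ c _ _

lemma adj_tensorHom {X Y X' Y' : C} (hX : HStr S X) (hY : HStr S Y) (hX' : HStr S X')
    (hY' : HStr S Y') (f : X ⟶ X') (g : Y ⟶ Y') :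
    adj B (tensorStr B V hX hY) (tensorStr B V hX' hY') (f ⊗ₘ g) =
      adj B hX hX' f ⊗ₘ adj B hY hY' g := by
  conv_lhs => rw [← ofMat_mat B hX hX' f, ← ofMat_mat B hY hY' g]
  unfold adj
  generalize hM : mat B hX hX' f = M
  generalize hN : mat B hY hY' g = N
  unfold ofMat
  simp_rw [sum_tensor, tensor_sum, smul_tensorHom, tensorHom_smul]
  change adj B (tensorStr B V hX hY) (tensorStr B V hX' hY') _ = _
  rw [adj_sum]
  refine Finset.sum_congr rfl fun a _ => ?_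
  rw [adj_sum]
  simp_rw [adj_sum, adj_smul, adj_tensor_prj_inc]
  rw [Finset.sum_comm]
  refine Finset.sum_congr rfl fun s' _ => Finset.sum_congr rfl fun s _ => ?_
  refine Finset.sum_congr rfl fun b _ => ?_
  rw [Finset.sum_comm]
  rfl

end

end Pool.Agent.TH22.UF
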