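import Pool.Agent.TH22.UF.Assoc

/-!
# Unitarity of the unit constraints
-/

set_option autoImplicit false
set_option linter.unusedSectionVars false

open CategoryTheory CategoryTheory.Limits MonoidalCategory

namespace Pool.Agent.TH22.UF

universe v u

section

variable {C : Type u} [Category.{v} C] [Preadditive C] [Linear ℂ C]

variable {r : ℕ} {S : Fin r → C} (B : Base S)

/-- An object isomorphic to `S a₀` is decomposed. -/
noncomputable def isoStr {X : C} (a₀ : Fin r) (u : S a₀ ≅ X) : HStr S X where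
  J a := PLift (a = a₀)
  fin a := inferInstance
  inc a h := eqToHom (congrArg S h.down) ≫ u.hom
  prj a h := u.inv ≫ eqToHom (congrArg S h.down.symm)
  inc_prj_self a h := by simp
  inc_prj_ne a s t h := absurd (Subsingleton.elim s t) h
  total := by
    rw [Finset.sum_eq_single a₀]
    · rw [Finset.sum_eq_single (⟨rfl⟩ : PLift (a₀ = a₀))]
      · simp
      · intro b _ hb; exact absurd (Subsingleton.elim _ _) hb
      · intro h; exact absurd (Finset.mem_univ _) h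
    · intro b _ hb
      refine Finset.sum_eq_zero fun h _ => absurd h.down hb
    · intro h; exact absurd (Finset.mem_univ _) h

lemma adj_eq_of_mat {X Y : C} (hX : HStr S X) (hY : HStr S Y) (f : X ⟶ Y) (g : Y ⟶ X)
    (h : ∀ d (x : hX.J d) (y : hY.J d), B.coef d (hY.inc d y ≫ g ≫ hX.prj d x) =
      star (B.coef d (hX.inc d x ≫ f ≫ hY.prj d y))) :
    adj B hX hY f = g := by
  apply mat_injective B hY hX
  funext d
  rw [mat_adj]
  ext y x
  rw [Matrix.conjTranspose_apply]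
  exact (h d x y).symm

end

section

variable {C : Type u} [Category.{v} C] [Preadditive C] [Linear ℂ C] [MonoidalCategory C]
  [MonoidalPreadditive C] [MonoidalLinear ℂ C]

variable {r : ℕ} {S : Fin r → C} (B : Base S) (V : ∀ a b, HStr S (S a ⊗ S b))

variable {a₀ : Fin r} (u : S a₀ ≅ 𝟙_ C)

/-- The scalar of the left unit constraint. -/
noncomputable def zl (b : Fin r) (i : (V a₀ b).J b) : ℂ :=
  B.coef b ((V a₀ b).inc b i ≫ (u.hom ▷ S b) ≫ (λ_ (S b)).hom)

/-- The scalar of the right unit constraint. -/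
noncomputable def zr (a : Fin r) (i : (V a a₀).J a) : ℂ :=
  B.coef a ((V a a₀).inc a i ≫ (S a ◁ u.hom) ≫ (ρ_ (S a)).hom)

lemma zl_mul (b : Fin r) (i : (V a₀ b).J b) :
    zl B V u b i * B.coef b ((λ_ (S b)).inv ≫ (u.inv ▷ S b) ≫ (V a₀ b).prj b i) = 1 := by
  unfold zl
  rw [← B.coef_comp, ← B.coef_id b]
  congr 1
  simp only [Category.assoc, Iso.hom_inv_id_assoc]
  rw [← comp_whiskerRight_assoc, u.hom_inv_id, id_whiskerRight, Category.id_comp,
    (V a₀ b).inc_prj_self]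

lemma zr_mul (a : Fin r) (i : (V a a₀).J a) :
    zr B V u a i * B.coef a ((ρ_ (S a)).inv ≫ (S a ◁ u.inv) ≫ (V a a₀).prj a i) = 1 := by
  unfold zr
  rw [← B.coef_comp, ← B.coef_id a]
  congr 1
  simp only [Category.assoc, Iso.hom_inv_id_assoc]
  rw [← MonoidalCategory.whiskerLeft_comp_assoc, u.hom_inv_id, whiskerLeft_id, Category.id_comp,
    (V a a₀).inc_prj_self]

lemma eq_star_of_norm {z w : ℂ} (h : z * w = 1) (hz : ‖z‖ = 1) : w = star z := by
  have h1 : z ≠ 0 := by rintro rfl; simp at h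
  have h2 : z * star z = 1 := by
    have := Complex.mul_conj z
    rw [Complex.normSq_eq_norm_sq, hz] at this
    simpa using this
  exact mul_left_cancel₀ h1 (h.trans h2.symm)

lemma adj_leftUnitor (hz : ∀ b i, ‖zl B V u b i‖ = 1) {X : C} (hX : HStr S X) :
    adj B (tensorStr B V (isoStr a₀ u) hX) hX (λ_ X).hom = (λ_ X).inv := by
  apply adj_eq_of_mat
  rintro d ⟨⟨a, b⟩, ⟨rfl⟩, t, i⟩ y
  change B.coef d (hX.inc d y ≫ (λ_ X).inv ≫ ((u.inv ≫ eqToHom _) ⊗ₘ hX.prj b t) ≫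
    (V a b).prj d i) = star (B.coef d (((V a b).inc d i ≫ ((eqToHom _ ≫ u.hom) ⊗ₘ hX.inc b t)) ≫
      (λ_ X).hom ≫ hX.prj d y))
  have e1 : hX.inc d y ≫ (λ_ X).inv ≫ ((u.inv ≫ eqToHom rfl) ⊗ₘ hX.prj b t) ≫ (V a b).prj d i =
      (hX.inc d y ≫ hX.prj b t) ≫ (λ_ (S b)).inv ≫ (u.inv ▷ S b) ≫ (V a b).prj d i := by
    simp [tensorHom_def']
  have e2 : ((V a b).inc d i ≫ ((eqToHom rfl ≫ u.hom) ⊗ₘ hX.inc b t)) ≫ (λ_ X).hom ≫
      hX.prj d y = ((V a b).inc d i ≫ (u.hom ▷ S b) ≫ (λ_ (S b)).hom) ≫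
        (hX.inc b t ≫ hX.prj d y) := by
    simp [MonoidalCategory.tensorHom_def]
  rw [e1, e2]
  by_cases hbd : b = d
  · subst hbd
    by_cases hty : t = y
    · subst hty
      rw [hX.inc_prj_self, Category.id_comp, Category.comp_id]
      exact eq_star_of_norm (zl_mul B V u b i) (hz b i)
    · rw [hX.inc_prj_ne b t y hty, hX.inc_prj_ne b y t (Ne.symm hty)]
      simp
  · rw [hX.inc_prj_label B hbd, hX.inc_prj_label B (Ne.symm hbd)]
    simp

lemma adj_rightUnitor (hz : ∀ a i, ‖zr B V u a i‖ = 1) {X : C} (hX : HStr S X) :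
    adj B (tensorStr B V hX (isoStr a₀ u)) hX (ρ_ X).hom = (ρ_ X).inv := by
  apply adj_eq_of_mat
  rintro d ⟨⟨a, b⟩, s, ⟨rfl⟩, i⟩ y
  change B.coef d (hX.inc d y ≫ (ρ_ X).inv ≫ (hX.prj a s ⊗ₘ (u.inv ≫ eqToHom _)) ≫
    (V a b).prj d i) = star (B.coef d (((V a b).inc d i ≫ (hX.inc a s ⊗ₘ (eqToHom _ ≫ u.hom))) ≫
      (ρ_ X).hom ≫ hX.prj d y))
  have e1 : hX.inc d y ≫ (ρ_ X).inv ≫ (hX.prj a s ⊗ₘ (u.inv ≫ eqToHom rfl)) ≫ (V a b).prj d i =
      (hX.inc d y ≫ hX.prj a s) ≫ (ρ_ (S a)).inv ≫ (S a ◁ u.inv) ≫ (V a b).prj d i := by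
    simp [MonoidalCategory.tensorHom_def]
  have e2 : ((V a b).inc d i ≫ (hX.inc a s ⊗ₘ (eqToHom rfl ≫ u.hom))) ≫ (ρ_ X).hom ≫
      hX.prj d y = ((V a b).inc d i ≫ (S a ◁ u.hom) ≫ (ρ_ (S a)).hom) ≫
        (hX.inc a s ≫ hX.prj d y) := by
    simp [tensorHom_def']
  rw [e1, e2]
  by_cases had : a = d
  · subst had
    by_cases hsy : s = y
    · subst hsy
      rw [hX.inc_prj_self, Category.id_comp, Category.comp_id]
      exact eq_star_of_norm (zr_mul B V u a i) (hz a i)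
    · rw [hX.inc_prj_ne a s y hsy, hX.inc_prj_ne a y s (Ne.symm hsy)]
      simp
  · rw [hX.inc_prj_label B had, hX.inc_prj_label B (Ne.symm had)]
    simp

include B u in
/-- Schur's lemma for `V^{1b}_c`. -/
lemma isEmpty_left {b c : Fin r} (h : b ≠ c) : IsEmpty ((V a₀ b).J c) := by
  constructor
  intro i
  have h1 : (V a₀ b).inc c i = 0 := by
    have h2 : (V a₀ b).inc c i ≫ (u.hom ▷ S b) ≫ (λ_ (S b)).hom = 0 := B.hom_zero (Ne.symm h) _
    have h3 : (V a₀ b).inc c i = ((V a₀ b).inc c i ≫ (u.hom ▷ S b) ≫ (λ_ (S b)).hom) ≫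
        (λ_ (S b)).inv ≫ (u.inv ▷ S b) := by
      simp only [Category.assoc, Iso.hom_inv_id_assoc]
      rw [← comp_whiskerRight, u.hom_inv_id, id_whiskerRight, Category.comp_id]
    rw [h3, h2, zero_comp]
  have h4 := (V a₀ b).inc_prj_self c i
  rw [h1, zero_comp] at h4
  have h5 := B.coef_id c
  rw [← h4, map_zero] at h5
  exact zero_ne_one h5

include B u in
lemma isEmpty_right {a c : Fin r} (h : a ≠ c) : IsEmpty ((V a a₀).J c) := by
  constructor
  intro i
  have h1 : (V a a₀).inc c i = 0 := by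
    have h2 : (V a a₀).inc c i ≫ (S a ◁ u.hom) ≫ (ρ_ (S a)).hom = 0 := B.hom_zero (Ne.symm h) _
    have h3 : (V a a₀).inc c i = ((V a a₀).inc c i ≫ (S a ◁ u.hom) ≫ (ρ_ (S a)).hom) ≫
        (ρ_ (S a)).inv ≫ (S a ◁ u.inv) := by
      simp only [Category.assoc, Iso.hom_inv_id_assoc]
      rw [← MonoidalCategory.whiskerLeft_comp, u.hom_inv_id, whiskerLeft_id, Category.comp_id]
    rw [h3, h2, zero_comp]
  have h4 := (V a a₀).inc_prj_self c i
  rw [h1, zero_comp] at h4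
  have h5 := B.coef_id c
  rw [← h4, map_zero] at h5
  exact zero_ne_one h5

include B u in
lemma subsingleton_left (b : Fin r) : Subsingleton ((V a₀ b).J b) := by
  constructor
  intro i j
  by_contra hij
  have h1 := (V a₀ b).inc_prj_ne b i j hij
  have h2 : (V a₀ b).inc b i = zl B V u b i • ((λ_ (S b)).inv ≫ (u.inv ▷ S b)) := by
    have h3 : (V a₀ b).inc b i = ((V a₀ b).inc b i ≫ (u.hom ▷ S b) ≫ (λ_ (S b)).hom) ≫
        (λ_ (S b)).inv ≫ (u.inv ▷ S b) := by
      simp only [Category.assoc, Iso.hom_inv_id_assoc]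
      rw [← comp_whiskerRight, u.hom_inv_id, id_whiskerRight, Category.comp_id]
    conv_lhs => rw [h3]
    rw [B.smul_comp_eq]
    rfl
  rw [h2, Linear.smul_comp] at h1
  have h4 := congrArg (B.coef b) h1
  rw [map_smul, map_zero, smul_eq_mul, Category.assoc] at h4
  rcases mul_eq_zero.mp h4 with h5 | h5
  · have := zl_mul B V u b i
    rw [h5, zero_mul] at this
    exact zero_ne_one this
  · have := zl_mul B V u b j
    rw [h5, mul_zero] at this
    exact zero_ne_one this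

include B u in
lemma nonempty_left [Simple (𝟙_ C)] (hne : ∀ a, 𝟙 (S a) ≠ 0) (b : Fin r) :
    Nonempty ((V a₀ b).J b) := by
  by_contra hcon
  rw [not_nonempty_iff] at hcon
  have h1 := (V a₀ b).total
  rw [Finset.sum_eq_zero] at h1
  · apply hne b
    have h2 : 𝟙 (S b) = (λ_ (S b)).inv ≫ (u.inv ▷ S b) ≫ 𝟙 (S a₀ ⊗ S b) ≫ (u.hom ▷ S b) ≫
        (λ_ (S b)).hom := by
      rw [Category.id_comp, ← comp_whiskerRight_assoc, u.inv_hom_id]
      simp
    rw [h2, ← h1]
    simp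
  · intro c _
    by_cases hbc : b = c
    · subst hbc; simp
    · have := isEmpty_left B V u hbc
      simp

include B u in
lemma nonempty_right [Simple (𝟙_ C)] (hne : ∀ a, 𝟙 (S a) ≠ 0) (a : Fin r) :
    Nonempty ((V a a₀).J a) := by
  by_contra hcon
  rw [not_nonempty_iff] at hcon
  have h1 := (V a a₀).total
  rw [Finset.sum_eq_zero] at h1
  · apply hne a
    have h2 : 𝟙 (S a) = (ρ_ (S a)).inv ≫ (S a ◁ u.inv) ≫ 𝟙 (S a ⊗ S a₀) ≫ (S a ◁ u.hom) ≫
        (ρ_ (S a)).hom := by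
      rw [Category.id_comp, ← MonoidalCategory.whiskerLeft_comp_assoc, u.inv_hom_id]
      simp
    rw [h2, ← h1]
    simp
  · intro c _
    by_cases hbc : a = c
    · subst hbc; simp
    · have := isEmpty_right B V u hbc
      simp

variable {V}

/-- The scalars of the left and right unit constraints have the same absolute value. -/
lemma norm_zr_eq_zl (hV : UnitaryV V) (hnt : ∀ a b, ∃ d, Nonempty ((V a b).J d)) (a b : Fin r)
    (i : (V a a₀).J a) (j : (V a₀ b).J b) : ‖zr B V u a i‖ = ‖zl B V u b j‖ := by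
  classical
  obtain ⟨d, ⟨k⟩⟩ := hnt a b
  obtain ⟨U, hU1, -, hU3⟩ := hV a a₀ b d
  have h1 := hU1 ⟨a, i, k⟩
  dsimp only at h1
  have hsub := subsingleton_left B V u b
  -- compose with the unit constraints
  have h2 := congrArg (fun f => f ≫ (S a ◁ (u.hom ▷ S b)) ≫ (S a ◁ (λ_ (S b)).hom)) h1
  have h3 : ((V a b).inc d k ≫ (V a a₀).inc a i ▷ S b ≫ (α_ (S a) (S a₀) (S b)).hom) ≫
      (S a ◁ (u.hom ▷ S b)) ≫ (S a ◁ (λ_ (S b)).hom) = zr B V u a i • (V a b).inc d k := by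
    have e1 : ((V a b).inc d k ≫ (V a a₀).inc a i ▷ S b ≫ (α_ (S a) (S a₀) (S b)).hom) ≫
      (S a ◁ (u.hom ▷ S b)) ≫ (S a ◁ (λ_ (S b)).hom) =
      (V a b).inc d k ≫ (((V a a₀).inc a i ≫ (S a ◁ u.hom) ≫ (ρ_ (S a)).hom) ▷ S b) := by
      simp
    rw [e1]
    conv_lhs => rw [B.coef_smul a ((V a a₀).inc a i ≫ (S a ◁ u.hom) ≫ (ρ_ (S a)).hom)]
    simp [zr]
  have h4 : (∑ q : Σ f, (V a₀ b).J f × (V a f).J d, U q ⟨a, (i, k)⟩ •
      ((V a q.1).inc d q.2.2 ≫ S a ◁ (V a₀ b).inc q.1 q.2.1)) ≫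
      (S a ◁ (u.hom ▷ S b)) ≫ (S a ◁ (λ_ (S b)).hom) =
      ∑ l : (V a b).J d, (U ⟨b, j, l⟩ ⟨a, i, k⟩ * zl B V u b j) • (V a b).inc d l := by
    rw [Preadditive.sum_comp, Fintype.sum_sigma, Finset.sum_eq_single b]
    · rw [Fintype.sum_prod_type, Finset.sum_eq_single j]
      · refine Finset.sum_congr rfl fun l _ => ?_
        have e1 : ((V a b).inc d l ≫ S a ◁ (V a₀ b).inc b j) ≫
            (S a ◁ (u.hom ▷ S b)) ≫ (S a ◁ (λ_ (S b)).hom) =
            (V a b).inc d l ≫ (S a ◁ ((V a₀ b).inc b j ≫ (u.hom ▷ S b) ≫ (λ_ (S b)).hom)) := by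
          simp
        rw [Linear.smul_comp, e1]
        conv_lhs => rw [B.coef_smul b ((V a₀ b).inc b j ≫ (u.hom ▷ S b) ≫ (λ_ (S b)).hom)]
        simp [zl, smul_smul]
      · intro j' _ hj; exact absurd (Subsingleton.elim j' j) hj
      · intro h; exact absurd (Finset.mem_univ _) h
    · intro f _ hf
      have := isEmpty_left B V u (Ne.symm hf)
      simp
    · intro h; exact absurd (Finset.mem_univ _) h
  rw [h3, h4] at h2
  -- compare coefficients
  have h5 : ∀ l, U ⟨b, j, l⟩ ⟨a, i, k⟩ * zl B V u b j = if l = k then zr B V u a i else 0 := by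
    intro l
    have h6 := congrArg (fun f => B.coef d (f ≫ (V a b).prj d l)) h2
    rw [Preadditive.sum_comp, Finset.sum_eq_single l] at h6
    · rw [Linear.smul_comp, Linear.smul_comp, (V a b).inc_prj_self, B.coef_smul_id] at h6
      rw [← h6]
      split_ifs with h7
      · subst h7; rw [(V a b).inc_prj_self, B.coef_smul_id]
      · rw [(V a b).inc_prj_ne d k l (Ne.symm h7)]; simp
    · intro l' _ hl
      rw [Linear.smul_comp, (V a b).inc_prj_ne d l' l hl, smul_zero]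
    · intro h; exact absurd (Finset.mem_univ _) h
  have h8 := hU3 ⟨a, i, k⟩
  rw [Fintype.sum_sigma, Finset.sum_eq_single b, Fintype.sum_prod_type, Finset.sum_eq_single j]
    at h8
  · have h9 : (∑ l, star (U ⟨b, j, l⟩ ⟨a, i, k⟩) * U ⟨b, j, l⟩ ⟨a, i, k⟩) *
        (star (zl B V u b j) * zl B V u b j) = star (zr B V u a i) * zr B V u a i := by
      rw [Finset.sum_mul]
      have h10 : ∀ l, star (U ⟨b, j, l⟩ ⟨a, i, k⟩) * U ⟨b, j, l⟩ ⟨a, i, k⟩ *
          (star (zl B V u b j) * zl B V u b j) =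
          star (U ⟨b, j, l⟩ ⟨a, i, k⟩ * zl B V u b j) * (U ⟨b, j, l⟩ ⟨a, i, k⟩ * zl B V u b j) := by
        intro l
        rw [star_mul']
        ring
      simp_rw [h10, h5]
      rw [Finset.sum_eq_single k]
      · simp
      · intro l _ hl; simp [hl]
      · intro h; exact absurd (Finset.mem_univ _) h
    rw [h8, one_mul] at h9
    have h11 : ∀ z : ℂ, star z * z = ((‖z‖ ^ 2 : ℝ) : ℂ) := by
      intro z
      rw [mul_comm]
      have := Complex.mul_conj z
      rw [Complex.normSq_eq_norm_sq] at this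
      exact this
    rw [h11, h11] at h9
    have h12 : ‖zl B V u b j‖ ^ 2 = ‖zr B V u a i‖ ^ 2 := by exact_mod_cast h9
    exact ((sq_eq_sq₀ (norm_nonneg _) (norm_nonneg _)).mp h12).symm
  · intro j' _ hj; exact absurd (Subsingleton.elim j' j) hj
  · intro h; exact absurd (Finset.mem_univ _) h
  · intro f _ hf
    have := isEmpty_left B V u (Ne.symm hf)
    simp
  · intro h; exact absurd (Finset.mem_univ _) h

end

end Pool.Agent.TH22.UF
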